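import Pool.Agent.Lib_helper75.BVM.Nontrivial

/-!
The complete Boolean algebra of the regular open sets of a Cantor cube, as a flip algebra.
-/

set_option autoImplicit false

universe u v

namespace Pool.Agent.BVM

open TopologicalSpace Heyting

/-- The regular open sets of a topological space. -/
def RO (X : Type u) [TopologicalSpace X] : Type u := Regular (Opens X)

noncomputable instance (X : Type u) [TopologicalSpace X] : CompleteBooleanAlgebra (RO X) :=
  { (inferInstance : BooleanAlgebra (Regular (Opens X))),
    (Regular.gi (α := Opens X)).liftCompleteLattice with }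

namespace RO

variable {X : Type u} [TopologicalSpace X]

/-- The open set of a regular open set. -/
def op (a : RO X) : Opens X := Regular.val a

theorem op_injective : Function.Injective (op : RO X → Opens X) := Regular.coe_injective

theorem op_le {a b : RO X} : op a ≤ op b ↔ a ≤ b := Iff.rfl

theorem op_bot : op (⊥ : RO X) = ⊥ := rfl

theorem op_top : op (⊤ : RO X) = ⊤ := rfl

theorem op_inf (a b : RO X) : op (a ⊓ b) = op a ⊓ op b := rfl

theorem op_compl (a : RO X) : op aᶜ = (op a)ᶜ := rfl

theorem op_compl_compl (a : RO X) : (op a)ᶜᶜ = op a := a.2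

/-- The regularization of an open set. -/
def reg (O : Opens X) : RO X := Regular.toRegular O

theorem op_reg (O : Opens X) : op (reg O) = Oᶜᶜ := rfl

/-- A regular open set is the bottom element if it has no points. -/
theorem eq_bot_iff_forall {a : RO X} : a = ⊥ ↔ ∀ x, x ∉ op a := by
  constructor
  · rintro rfl x hx
    exact hx
  · intro h
    apply op_injective
    rw [op_bot]
    refine Opens.ext ?_
    ext x
    exact ⟨fun hx => absurd hx (h x), fun hx => absurd hx (by simp)⟩

/-- The map of the regular open sets given by a homeomorphism. -/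
def congr {Y : Type v} [TopologicalSpace Y] (f : X ≃ₜ Y) : RO X ≃o RO Y where
  toFun a := ⟨f.opensCongr (op a), by
    show (f.opensCongr (op a))ᶜᶜ = f.opensCongr (op a)
    rw [← map_compl, ← map_compl, op_compl_compl]⟩
  invFun a := ⟨f.opensCongr.symm (op a), by
    show (f.opensCongr.symm (op a))ᶜᶜ = f.opensCongr.symm (op a)
    rw [← map_compl, ← map_compl, op_compl_compl]⟩
  left_inv a := op_injective (f.opensCongr.symm_apply_apply _)
  right_inv a := op_injective (f.opensCongr.apply_symm_apply _)
  map_rel_iff' := f.opensCongr.le_iff_le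

theorem op_congr {Y : Type v} [TopologicalSpace Y] (f : X ≃ₜ Y) (a : RO X) :
    op (congr f a) = f.opensCongr (op a) := rfl

theorem mem_op_congr {Y : Type v} [TopologicalSpace Y] (f : X ≃ₜ Y) (a : RO X) (y : Y) :
    y ∈ op (congr f a) ↔ f.symm y ∈ op a := Iff.rfl

theorem congr_reg {Y : Type v} [TopologicalSpace Y] (f : X ≃ₜ Y) (O : Opens X) :
    congr f (reg O) = reg (f.opensCongr O) := by
  apply op_injective
  rw [op_congr, op_reg, op_reg, map_compl, map_compl]

end RO

/-! ### The Cantor cube -/

section Cube

variable {W : Type u}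

/-- The Cantor cube. -/
abbrev Cube (W : Type u) : Type u := W → Bool

/-- Flipping a coordinate. -/
noncomputable def flipPt (w : W) (x : Cube W) : Cube W := by
  classical
  exact Function.update x w (!(x w))

theorem flipPt_same (w : W) (x : Cube W) : flipPt w x w = !(x w) := by
  classical
  unfold flipPt
  rw [Function.update_self]

theorem flipPt_of_ne {w v : W} (h : v ≠ w) (x : Cube W) : flipPt w x v = x v := by
  classical
  unfold flipPt
  rw [Function.update_of_ne h]

theorem flipPt_flipPt (w : W) (x : Cube W) : flipPt w (flipPt w x) = x := by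
  funext v
  by_cases h : v = w
  · subst h
    rw [flipPt_same, flipPt_same, Bool.not_not]
  · rw [flipPt_of_ne h, flipPt_of_ne h]

theorem continuous_flipPt (w : W) : Continuous (flipPt w : Cube W → Cube W) := by
  refine continuous_pi fun v => ?_
  by_cases h : v = w
  · subst h
    simp only [flipPt_same]
    exact (continuous_of_discreteTopology (f := fun b : Bool => !b)).comp (continuous_apply v)
  · simp only [flipPt_of_ne h]
    exact continuous_apply v

/-- The homeomorphism that flips a coordinate. -/
noncomputable def flipHomeo (w : W) : Cube W ≃ₜ Cube W where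
  toFun := flipPt w
  invFun := flipPt w
  left_inv := flipPt_flipPt w
  right_inv := flipPt_flipPt w
  continuous_toFun := continuous_flipPt w
  continuous_invFun := continuous_flipPt w

theorem flipHomeo_symm_apply (w : W) (x : Cube W) : (flipHomeo w).symm x = flipPt w x := rfl

/-- Each open set contains, with a point, all the points with the same values at finitely many
coordinates. -/
theorem exists_finset {O : Opens (Cube W)} {x : Cube W} (hx : x ∈ O) :
    ∃ s : Finset W, ∀ y : Cube W, (∀ v ∈ s, y v = x v) → y ∈ O := by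
  obtain ⟨s, u, hu, hsub⟩ := isOpen_pi_iff.mp O.isOpen x hx
  refine ⟨s, fun y hy => hsub ?_⟩
  intro v hv
  rw [hy v hv]
  exact (hu v hv).2

/-- The points in a countable dense set. -/
def densePt (ι : W → ℕ → Bool) (p : Σ N : ℕ, ((Fin N → Bool) → Bool)) : Cube W :=
  fun w => p.2 fun i => ι w i

theorem exists_densePt {ι : W → ℕ → Bool} (hι : Function.Injective ι) (x : Cube W)
    (s : Finset W) : ∃ p, ∀ v ∈ s, densePt ι p v = x v := by
  classical
  have h1 : ∀ p : W × W, ∃ n : ℕ, p.1 ≠ p.2 → ι p.1 n ≠ ι p.2 n := by
    intro p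
    by_cases h : p.1 = p.2
    · exact ⟨0, fun h' => absurd h h'⟩
    · obtain ⟨n, hn⟩ : ∃ n, ι p.1 n ≠ ι p.2 n := by
        by_contra hcon
        push Not at hcon
        exact h (hι (funext hcon))
      exact ⟨n, fun _ => hn⟩
  choose n hn using h1
  let N : ℕ := (s ×ˢ s).sup n + 1
  let r : W → Fin N → Bool := fun w i => ι w i
  have hr : ∀ v ∈ s, ∀ v' ∈ s, r v = r v' → v = v' := by
    intro v hv v' hv' h
    by_contra hne
    have h2 : n (v, v') < N := Nat.lt_succ_of_le
      (Finset.le_sup (f := n) (Finset.mem_product.mpr ⟨hv, hv'⟩))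
    exact hn (v, v') hne (congrFun h ⟨_, h2⟩)
  refine ⟨⟨N, fun σ => if h : ∃ v ∈ s, r v = σ then x h.choose else false⟩, fun v hv => ?_⟩
  show (if h : ∃ v' ∈ s, r v' = r v then x h.choose else false) = x v
  have hex : ∃ v' ∈ s, r v' = r v := ⟨v, hv, rfl⟩
  rw [dif_pos hex]
  rw [hr _ hex.choose_spec.1 v hv hex.choose_spec.2]

theorem exists_densePt_mem {ι : W → ℕ → Bool} (hι : Function.Injective ι) {O : Opens (Cube W)}
    {x : Cube W} (hx : x ∈ O) : ∃ p, densePt ι p ∈ O := by
  obtain ⟨s, hs⟩ := exists_finset hx
  obtain ⟨p, hp⟩ := exists_densePt hι x s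
  exact ⟨p, hs _ hp⟩

theorem ccc_cube {ι : W → ℕ → Bool} (hι : Function.Injective ι) : CCC (RO (Cube W)) := by
  intro κ a ha
  have h1 : ∀ i, ∃ p, a i ≠ ⊥ → densePt ι p ∈ RO.op (a i) := by
    intro i
    by_cases h : a i = ⊥
    · exact ⟨⟨0, fun _ => false⟩, fun h' => absurd h h'⟩
    · rw [RO.eq_bot_iff_forall] at h
      push Not at h
      obtain ⟨x, hx⟩ := h
      obtain ⟨p, hp⟩ := exists_densePt_mem hι hx
      exact ⟨p, fun _ => hp⟩
  choose p hp using h1
  have h2 : Set.InjOn p {i | a i ≠ ⊥} := by
    intro i hi j hj hij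
    by_contra hne
    have h3 := hp i hi
    have h4 := hp j hj
    rw [← hij] at h4
    exact RO.eq_bot_iff_forall.mp (ha i j hne) (densePt ι (p i)) ⟨h3, h4⟩
  exact Set.MapsTo.countable_of_injOn (Set.mapsTo_univ p _) h2 Set.countable_univ

theorem support_cube {ι : W → ℕ → Bool} (hι : Function.Injective ι) (a : RO (Cube W)) :
    {w | RO.congr (flipHomeo w) a ≠ a}.Countable := by
  classical
  have h1 : ∀ p : Σ N : ℕ, ((Fin N → Bool) → Bool),
      {w : W | densePt ι p ∈ RO.op a ∧ flipPt w (densePt ι p) ∉ RO.op a}.Countable := by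
    intro p
    by_cases h : densePt ι p ∈ RO.op a
    · obtain ⟨s, hs⟩ := exists_finset h
      refine Set.Countable.mono ?_ s.countable_toSet
      rintro w ⟨-, hw⟩
      by_contra hws
      refine hw (hs _ fun v hv => flipPt_of_ne ?_ _)
      rintro rfl
      exact hws hv
    · refine Set.Countable.mono ?_ Set.countable_empty
      rintro w ⟨hw, -⟩
      exact absurd hw h
  refine Set.Countable.mono ?_ (Set.countable_iUnion h1)
  intro w hw
  by_contra hcon
  simp only [Set.mem_iUnion, Set.mem_ofPred_eq, not_exists, not_and, not_not] at hcon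
  apply hw
  have key : RO.congr (flipHomeo w) a ≤ a := by
    rw [← compl_compl a, le_compl_iff_disjoint_right, disjoint_iff, RO.eq_bot_iff_forall]
    rw [compl_compl]
    rintro x ⟨hx1, hx2⟩
    -- `hx1 : flipPt w x ∈ a`, `hx2 : x ∈ aᶜ`
    have hx3 : flipPt w x ∈ RO.op (a ⊓ RO.congr (flipHomeo w) aᶜ) := by
      refine ⟨hx1, ?_⟩
      show (flipHomeo w).symm (flipPt w x) ∈ RO.op aᶜ
      rw [flipHomeo_symm_apply, flipPt_flipPt]
      exact hx2
    obtain ⟨p, hp1, hp2⟩ := exists_densePt_mem hι hx3
    have h2 := hcon p hp1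
    exact RO.eq_bot_iff_forall.mp (inf_compl_eq_bot : a ⊓ aᶜ = ⊥) (flipPt w (densePt ι p))
      ⟨h2, hp2⟩
  refine le_antisymm key ?_
  have h3 := (RO.congr (flipHomeo w)).monotone key
  have h4 : RO.congr (flipHomeo w) (RO.congr (flipHomeo w) a) = a := by
    apply RO.op_injective
    refine Opens.ext ?_
    ext x
    show flipPt w (flipPt w x) ∈ RO.op a ↔ x ∈ RO.op a
    rw [flipPt_flipPt]
  rw [h4] at h3
  exact h3

/-- The half of the cube given by a value at a coordinate. -/
def half (w : W) (β : Bool) : Opens (Cube W) :=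
  ⟨(fun x : Cube W => x w) ⁻¹' {β}, (isOpen_discrete {β}).preimage (continuous_apply w)⟩

theorem mem_half {w : W} {β : Bool} {x : Cube W} : x ∈ half w β ↔ x w = β := Iff.rfl

theorem half_compl (w : W) (β : Bool) : (half w β)ᶜ = half w (!β) := by
  apply IsCompl.compl_eq
  rw [isCompl_iff, disjoint_iff, codisjoint_iff]
  constructor
  · refine Opens.ext ?_
    ext x
    constructor
    · rintro ⟨h1, h2⟩
      have h1' : x w = β := mem_half.mp h1
      have h2' : x w = !β := mem_half.mp h2
      rw [h1'] at h2'
      simp at h2'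
    · intro h
      exact absurd h (by simp)
  · refine Opens.ext ?_
    ext x
    constructor
    · intro _
      trivial
    · intro _
      have h : x ∈ half w β ∨ x ∈ half w (!β) := by
        rw [mem_half, mem_half]
        cases x w <;> cases β <;> simp
      exact h

theorem opensCongr_half (w : W) (β : Bool) :
    (flipHomeo w).opensCongr (half w β) = half w (!β) := by
  refine Opens.ext ?_
  ext x
  have h : flipPt w x ∈ half w β ↔ x ∈ half w (!β) := by
    rw [mem_half, mem_half, flipPt_same]
    cases x w <;> cases β <;> simp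
  exact h

/-- The Cantor cube gives a flip algebra. -/
noncomputable def cubeAlgebra {ι : W → ℕ → Bool} (hι : Function.Injective ι) :
    FlipAlgebra (RO (Cube W)) W where
  ccc := ccc_cube hι
  flip w := RO.congr (flipHomeo w)
  bit w := RO.reg (half w true)
  flip_bit w := by
    rw [RO.congr_reg, opensCongr_half]
    apply RO.op_injective
    rw [RO.op_compl, RO.op_reg, RO.op_reg, half_compl, half_compl, half_compl, half_compl,
      half_compl]
  support := support_cube hι

theorem exists_uf (W : Type u) : Nonempty (UF (RO (Cube W))) := by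
  obtain ⟨U, -⟩ := UF.exists_mem (b := (⊤ : RO (Cube W))) (by
    intro h
    exact RO.eq_bot_iff_forall.mp h (fun _ => false) trivial)
  exact ⟨U⟩

end Cube

end Pool.Agent.BVM
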