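import Pool.Agent.Lib_helper75.BVM.TruthValues

/-!
Countability in the quotient models, for algebras with the countable chain condition.
-/

set_option autoImplicit false

universe u v

namespace Pool.Agent.BVM

open BSet

variable {B : Type u} [CompleteBooleanAlgebra B]

/-- The countable chain condition. -/
def CCC (B : Type u) [CompleteBooleanAlgebra B] : Prop :=
  ∀ (ι : Type u) (a : ι → B), (∀ i j, i ≠ j → a i ⊓ a j = ⊥) → {i | a i ≠ ⊥}.Countable

theorem CCC.exists_countable_sup (h : CCC B) {ι : Type u} (a : ι → B) :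
    ∃ s : Set ι, s.Countable ∧ (⨆ i, a i) = ⨆ i ∈ s, a i := by
  classical
  let r : ι → ι → Prop := WellOrderingRel
  let b : ι → B := fun i => a i ⊓ ⨅ e : {e : ι // r e i}, (a e)ᶜ
  have hb : ∀ i j, i ≠ j → b i ⊓ b j = ⊥ := by
    have key : ∀ i j, r i j → b i ⊓ b j = ⊥ := by
      intro i j hij
      rw [← le_bot_iff]
      calc b i ⊓ b j ≤ a i ⊓ (a i)ᶜ :=
            inf_le_inf inf_le_left (inf_le_right.trans (iInf_le _ (⟨i, hij⟩ : {e : ι // r e j})))
        _ ≤ ⊥ := by simp
    intro i j hij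
    rcases trichotomous_of r i j with h | h | h
    · exact key i j h
    · exact absurd h hij
    · rw [inf_comm]; exact key j i h
  refine ⟨{i | b i ≠ ⊥}, h ι b hb, le_antisymm ?_ ?_⟩
  · refine (iSup_first r a).trans (iSup_le fun i => ?_)
    by_cases hi : b i = ⊥
    · show b i ≤ _
      rw [hi]; exact bot_le
    · exact le_iSup₂_of_le i hi inf_le_left
  · exact iSup₂_le fun i _ => le_iSup a i

theorem CCC.countable_of_inj (h : CCC B) {W : Type u} {K : Type v} [Countable K] (t : B)
    (N : Set W) (q : W → K → B) (h1 : ∀ d ∈ N, ∃ k, t ⊓ q d k ≠ ⊥)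
    (h2 : ∀ d d' k, d ≠ d' → t ⊓ q d k ⊓ q d' k = ⊥) : N.Countable := by
  classical
  rcases isEmpty_or_nonempty K with hK | hK
  · have : N = ∅ := by
      ext d
      simp only [Set.mem_empty_iff_false, iff_false]
      intro hd
      obtain ⟨k, -⟩ := h1 d hd
      exact hK.elim k
    rw [this]
    exact Set.countable_empty
  choose! k hk using h1
  have hN : N ⊆ ⋃ m : K, {d | (if d ∈ N ∧ k d = m then t ⊓ q d m else ⊥) ≠ ⊥} := by
    intro d hd
    refine Set.mem_iUnion.mpr ⟨k d, ?_⟩
    show (if d ∈ N ∧ k d = k d then t ⊓ q d (k d) else ⊥) ≠ ⊥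
    rw [if_pos ⟨hd, rfl⟩]
    exact hk d hd
  refine Set.Countable.mono hN (Set.countable_iUnion fun m => ?_)
  refine h W _ fun d d' hdd => ?_
  by_cases h3 : d ∈ N ∧ k d = m
  · by_cases h4 : d' ∈ N ∧ k d' = m
    · rw [if_pos h3, if_pos h4, ← le_bot_iff, ← h2 d d' m hdd]
      exact le_inf inf_le_left (inf_le_right.trans inf_le_right)
    · rw [if_neg h4, inf_bot_eq]
  · rw [if_neg h3, bot_inf_eq]

variable {W : Type u} [LinearOrder W] [WellFoundedLT W]

theorem CCC.inj_support (h : CCC B) {K : Type v} [Countable K] (t : B) (f d b : BSet B)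
    (y : K → BSet B) (hb : ∀ z, t ⊓ bmem z b ≤ ⨆ k, beq z (y k))
    (hf : ∀ V : UF B, t ∈ V → IsInj (Emem V) (cls V f) (cls V d) (cls V b)) :
    {w : W | t ⊓ bmem (vN B w) d ≠ ⊥}.Countable := by
  refine h.countable_of_inj t _ (fun w k => bmem (vN B w) d ⊓ bmem (opair (vN B w) (y k)) f)
    ?_ ?_
  · intro w hw
    by_contra hcon
    push Not at hcon
    apply hw
    rw [← le_bot_iff]
    have h1 : t ⊓ bmem (vN B w) d ≤ ⨆ z, bmem z b ⊓ bmem (opair (vN B w) z) f := by
      refine UF.le_of_forall fun V hV => ?_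
      obtain ⟨ht, hwd⟩ := V.inf_mem_iff.mp hV
      obtain ⟨⟨hp, hfun⟩, -⟩ := hf V ht
      obtain ⟨z, ⟨p, hp1, hp2⟩, -⟩ := hfun (cls V (vN B w)) hwd
      obtain ⟨x', y', hx', hy', hp'⟩ := hp p hp2
      obtain ⟨z, rfl⟩ := cls_surj V z
      obtain ⟨x', rfl⟩ := cls_surj V x'
      obtain ⟨y', rfl⟩ := cls_surj V y'
      have h5 : Rel (Emem V) (cls V f) (cls V (vN B w)) (cls V z) := ⟨p, hp1, hp2⟩
      rw [isPair_iff] at hp1 hp'
      obtain ⟨-, h4⟩ := cls_opair_inj (hp1.symm.trans hp')
      rw [← h4] at hy'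
      exact V.mono (V.inf_mem hy' (rel_iff.mp h5))
        (le_iSup (fun z => bmem z b ⊓ bmem (opair (vN B w) z) f) z)
    have h2 : t ⊓ bmem (vN B w) d ≤ ⨆ k, t ⊓ (bmem (vN B w) d ⊓
        bmem (opair (vN B w) (y k)) f) := by
      calc t ⊓ bmem (vN B w) d
          ≤ (t ⊓ bmem (vN B w) d) ⊓ ⨆ z, bmem z b ⊓ bmem (opair (vN B w) z) f :=
            le_inf le_rfl h1
        _ = ⨆ z, (t ⊓ bmem (vN B w) d) ⊓ (bmem z b ⊓ bmem (opair (vN B w) z) f) :=
            inf_iSup_eq _ _
        _ ≤ _ := by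
            refine iSup_le fun z => ?_
            have h3 : (t ⊓ bmem (vN B w) d) ⊓ (bmem z b ⊓ bmem (opair (vN B w) z) f) ≤
                ⨆ k, beq z (y k) :=
              le_trans (le_inf (inf_le_left.trans inf_le_left)
                (inf_le_right.trans inf_le_left)) (hb z)
            calc (t ⊓ bmem (vN B w) d) ⊓ (bmem z b ⊓ bmem (opair (vN B w) z) f)
                ≤ ((t ⊓ bmem (vN B w) d) ⊓ bmem (opair (vN B w) z) f) ⊓ ⨆ k, beq z (y k) :=
                  le_inf (inf_le_inf_left _ inf_le_right) h3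
              _ = ⨆ k, ((t ⊓ bmem (vN B w) d) ⊓ bmem (opair (vN B w) z) f) ⊓ beq z (y k) :=
                  inf_iSup_eq _ _
              _ ≤ _ := by
                  refine iSup_mono fun k => ?_
                  refine le_inf (inf_le_left.trans (inf_le_left.trans inf_le_left))
                    (le_inf (inf_le_left.trans (inf_le_left.trans inf_le_right)) ?_)
                  have h4 : beq z (y k) ≤ beq (opair (vN B w) z) (opair (vN B w) (y k)) := by
                    rw [beq_opair, beq_refl, top_inf_eq]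
                  exact le_trans (le_inf (inf_le_right.trans h4)
                    (inf_le_left.trans inf_le_right)) (bmem_congr_left _ _ _)
    refine h2.trans (iSup_le fun k => ?_)
    rw [hcon k]
  · intro w w' k hww
    rw [← le_bot_iff]
    refine UF.le_of_forall fun V hV => ?_
    simp only [V.inf_mem_iff] at hV
    obtain ⟨⟨ht, hwd, hr⟩, hwd', hr'⟩ := hV
    have h1 := (hf V ht).2 _ _ _ (rel_iff.mpr hr) (rel_iff.mpr hr')
    rw [cls_eq, vN_beq_of_ne hww] at h1
    exact h1

/-- If `d` is countable with truth value at least `t` then only countably many elements of the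
ground model are possible elements of `d`. -/
theorem CCC.countable_support (h : CCC B) (t : B) (d : BSet B)
    (hd : ∀ V : UF B, t ∈ V → IsCountable (Emem V) (cls V d)) :
    {w : W | t ⊓ bmem (vN B w) d ≠ ⊥}.Countable := by
  obtain ⟨f, hf⟩ := HasTV.exists_witness
    (P := fun U f => IsInj (Emem U) f (cls U d) (cls U (omega B)))
    (fun f => hasTV_isInj f d (omega B))
  refine h.inj_support t f d (omega B) (fun n : ℕ => vN B (ULift.up.{u} n)) ?_ ?_
  · intro z
    rw [bmem_omega]
    exact inf_le_right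
  · intro V hV
    exact hf V (isCountable_iff.mp (hd V hV))

theorem CCC.countable_support' (h : CCC B) {U : UF B} {d : BSet B}
    (hd : IsCountable (Emem U) (cls U d)) :
    ∃ c ∈ U, {w : W | c ⊓ bmem (vN B w) d ≠ ⊥}.Countable := by
  obtain ⟨t, ht⟩ := hasTV_isCountable d
  exact ⟨t, (ht U).mp hd, h.countable_support t d fun V hV => (ht V).mpr hV⟩

theorem bsub_oT {x : BSet B} (y : BSet B) : bsub x (oT B W) ⊓ bmem y x ≤
    ⨆ w : W, beq y (vN B w) ⊓ bmem (vN B w) x := by
  have h1 : bsub x (oT B W) ⊓ bmem y x ≤ bmem y (oT B W) := by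
    rw [bsub_eq]
    refine le_trans (inf_le_inf_right _ (iInf_le _ y)) himp_inf_le
  calc bsub x (oT B W) ⊓ bmem y x ≤ bmem y (oT B W) ⊓ bmem y x := le_inf h1 inf_le_right
    _ = ⨆ w : W, beq y (vN B w) ⊓ bmem y x := by rw [bmem_oT, iSup_inf_eq]
    _ ≤ _ := iSup_mono fun w => le_inf inf_le_left (bmem_congr_left _ _ _)

/-- A set of elements of the ground model that has only countably many possible elements is
countable. -/
theorem isCountable_of_support {U : UF B} {c : B} (hc : c ∈ U) (d : BSet B)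
    (hd : IsSub (Emem U) (cls U d) (cls U (oT B W)))
    (hK : {w : W | c ⊓ bmem (vN B w) d ≠ ⊥}.Countable) :
    IsCountable (Emem U) (cls U d) := by
  classical
  rw [isCountable_iff]
  rw [isSub_iff] at hd
  set K : Set W := {w : W | c ⊓ bmem (vN B w) d ≠ ⊥} with hKdef
  obtain ⟨k, hk⟩ : ∃ k : W → ℕ, Set.InjOn k K := by
    have : Countable K := hK.to_subtype
    obtain ⟨g, hg⟩ := exists_injective_nat K
    refine ⟨fun w => if hw : w ∈ K then g ⟨w, hw⟩ else 0, ?_⟩
    intro a ha b hb hab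
    simp only [ha, hb, dif_pos] at hab
    exact congrArg Subtype.val (hg hab)
  let y : W → BSet B := fun w => vN B (ULift.up.{u} (k w))
  let f : BSet B := mk K (fun w => opair (vN B w.1) (y w.1)) (fun w => bmem (vN B w.1) d)
  have hbf : ∀ p, bmem p f = ⨆ w : K, bmem (vN B w.1) d ⊓ beq p (opair (vN B w.1) (y w.1)) :=
    fun p => rfl
  have hrel : ∀ x z, bmem (opair x z) f = ⨆ w : K, bmem (vN B w.1) d ⊓
      (beq x (vN B w.1) ⊓ beq z (y w.1)) := by
    intro x z
    rw [hbf]
    simp only [beq_opair]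
  have hy : ∀ w w' : K, w ≠ w' → beq (y w.1) (y w'.1) = ⊥ := by
    intro w w' hww
    apply vN_beq_of_ne
    intro h
    apply hww
    exact Subtype.ext (hk w.2 w'.2 (congrArg ULift.down h))
  refine ⟨cls U f, ⟨?_, ?_⟩, ?_⟩
  · intro p hp
    obtain ⟨p, rfl⟩ := cls_surj U p
    have h1 : bmem p f ≤ ⨆ x, ⨆ z, (bmem x d ⊓ bmem z (omega B)) ⊓ beq p (opair x z) := by
      rw [hbf]
      refine iSup_le fun w => le_iSup₂_of_le (vN B w.1) (y w.1) ?_
      refine inf_le_inf_right _ (le_inf le_rfl ?_)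
      show _ ≤ bmem (vN B (ULift.up.{u} (k w.1))) (oT B (ULift.{u} ℕ))
      rw [vN_mem_oT]
      exact le_top
    have h2 := U.mono hp h1
    have hTV : ∀ x, HasTV fun U : UF B => ∃ z, (Emem U (cls U x) (cls U d) ∧
        Emem U z (cls U (omega B))) ∧ IsPair (Emem U) (cls U p) (cls U x) z := fun x =>
      HasTV.ex fun z => ((HasTV.mem x d).and (HasTV.mem z (omega B))).and (hasTV_isPair p x z)
    have hval : ∀ x z, ∀ V : UF B, ((Emem V (cls V x) (cls V d) ∧
        Emem V (cls V z) (cls V (omega B))) ∧ IsPair (Emem V) (cls V p) (cls V x) (cls V z)) ↔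
        (bmem x d ⊓ bmem z (omega B)) ⊓ beq p (opair x z) ∈ V := by
      intro x z V
      rw [V.inf_mem_iff, V.inf_mem_iff, isPair_iff, cls_eq]
      exact Iff.rfl
    have hE2 : ∀ x, Ext fun z => (bmem x d ⊓ bmem z (omega B)) ⊓ beq p (opair x z) := fun x =>
      HasTV.ext_of (P := fun V z => (Emem V (cls V x) (cls V d) ∧
        Emem V z (cls V (omega B))) ∧ IsPair (Emem V) (cls V p) (cls V x) z) (hval x)
    have hE1 : Ext fun x => ⨆ z, (bmem x d ⊓ bmem z (omega B)) ⊓ beq p (opair x z) := by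
      refine Ext.iSup fun z => ?_
      exact HasTV.ext_of (P := fun V x => (Emem V x (cls V d) ∧
        Emem V (cls V z) (cls V (omega B))) ∧ IsPair (Emem V) (cls V p) x (cls V z))
        (fun x V => hval x z V)
    obtain ⟨x, hx⟩ := (iSup_mem_iff hE1).mp h2
    obtain ⟨z, hz⟩ := (iSup_mem_iff (hE2 x)).mp hx
    rw [← hval] at hz
    exact ⟨_, _, hz.1.1, hz.1.2, hz.2⟩
  · intro x hx
    obtain ⟨x, rfl⟩ := cls_surj U x
    have hex : ∃ z, Rel (Emem U) (cls U f) (cls U x) z := by
      have h1 : c ⊓ (bsub d (oT B W) ⊓ bmem x d) ≤ ⨆ z, bmem (opair x z) f := by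
        refine le_trans (inf_le_inf_left c (bsub_oT x)) ?_
        rw [inf_iSup_eq]
        refine iSup_le fun w => ?_
        by_cases hw : w ∈ K
        · refine le_iSup_of_le (y w) ?_
          rw [hrel]
          refine le_iSup_of_le (⟨w, hw⟩ : K) ?_
          refine le_inf (inf_le_right.trans inf_le_right)
            (le_inf (inf_le_right.trans inf_le_left) ?_)
          show _ ≤ beq (y w) (y w)
          rw [beq_refl]
          exact le_top
        · have h0 : c ⊓ bmem (vN B w) d = ⊥ := by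
            by_contra hne
            exact hw hne
          refine le_trans (le_inf inf_le_left (inf_le_right.trans inf_le_right)) ?_
          rw [h0]
          exact bot_le
      have h2 := U.mono (U.inf_mem hc (U.inf_mem hd hx)) h1
      have hE : Ext fun z => bmem (opair x z) f :=
        HasTV.ext_of (P := fun V z => Rel (Emem V) (cls V f) (cls V x) z)
          (fun z V => rel_iff)
      obtain ⟨z, hz⟩ := (iSup_mem_iff hE).mp h2
      exact ⟨cls U z, rel_iff.mpr hz⟩
    obtain ⟨z, hz⟩ := hex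
    refine ⟨z, hz, fun z' hz' => ?_⟩
    obtain ⟨z, rfl⟩ := cls_surj U z
    obtain ⟨z', rfl⟩ := cls_surj U z'
    rw [rel_iff] at hz hz'
    rw [cls_eq]
    refine U.mono (U.inf_mem hz hz') ?_
    rw [hrel, hrel, iSup_inf_eq]
    refine iSup_le fun w => ?_
    rw [inf_iSup_eq]
    refine iSup_le fun w' => ?_
    by_cases hww : w = w'
    · subst hww
      refine UF.le_of_forall fun V hV => ?_
      simp only [V.inf_mem_iff, ← cls_eq] at hV ⊢
      rw [hV.1.2.2, hV.2.2.2]
    · refine UF.le_of_forall fun V hV => ?_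
      exfalso
      simp only [V.inf_mem_iff, ← cls_eq] at hV
      have h3 : cls V (vN B w.1) = cls V (vN B w'.1) := hV.1.2.1.symm.trans hV.2.2.1
      rw [cls_eq, vN_beq_of_ne (fun h => hww (Subtype.ext h))] at h3
      exact V.bot_notMem h3
  · intro x x' z hx hx'
    obtain ⟨x, rfl⟩ := cls_surj U x
    obtain ⟨x', rfl⟩ := cls_surj U x'
    obtain ⟨z, rfl⟩ := cls_surj U z
    rw [rel_iff] at hx hx'
    rw [cls_eq]
    refine U.mono (U.inf_mem hx hx') ?_
    rw [hrel, hrel, iSup_inf_eq]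
    refine iSup_le fun w => ?_
    rw [inf_iSup_eq]
    refine iSup_le fun w' => ?_
    by_cases hww : w = w'
    · subst hww
      refine UF.le_of_forall fun V hV => ?_
      simp only [V.inf_mem_iff, ← cls_eq] at hV ⊢
      rw [hV.1.2.1, hV.2.2.1]
    · refine UF.le_of_forall fun V hV => ?_
      exfalso
      simp only [V.inf_mem_iff, ← cls_eq] at hV
      have h3 : cls V (y w.1) = cls V (y w'.1) := hV.1.2.2.symm.trans hV.2.2.2
      rw [cls_eq, hy w w' hww] at h3
      exact V.bot_notMem h3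

/-! ### The ordinal `W` of the ground model -/

theorem isOrd_oT (U : UF B) : IsOrd (Emem U) (cls U (oT B W)) := by
  have h1 : ∀ y z : BSet B, bmem y (oT B W) ⊓ bmem z y ≤ bmem z (oT B W) := by
    intro y z
    rw [bmem_oT y, iSup_inf_eq]
    refine iSup_le fun w => (bmem_congr_right _ _ _).trans ?_
    rw [bmem_vN, bmem_oT]
    exact iSup_le fun v => le_iSup (fun w : W => beq z (vN B w)) v.1
  have h2 : ∀ y z x : BSet B, (bmem y (oT B W) ⊓ bmem z y) ⊓ bmem x z ≤ bmem x y := by
    intro y z x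
    rw [bmem_oT, iSup_inf_eq, iSup_inf_eq]
    refine iSup_le fun w => ?_
    have h3 : ∀ v : W, v < w → beq z (vN B v) ⊓ bmem x z ≤ bmem x (vN B w) := by
      intro v hv
      refine (bmem_congr_right _ _ _).trans ?_
      rw [bmem_vN, bmem_vN]
      exact iSup_le fun e => le_iSup (fun w' : {v : W // v < w} => beq x (vN B w'.1))
        ⟨e.1, lt_trans e.2 hv⟩
    have h4 : beq y (vN B w) ⊓ bmem z y ⊓ bmem x z ≤ bmem x (vN B w) := by
      calc beq y (vN B w) ⊓ bmem z y ⊓ bmem x z ≤ bmem z (vN B w) ⊓ bmem x z :=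
            inf_le_inf_right _ (bmem_congr_right _ _ _)
        _ = ⨆ v : {v : W // v < w}, beq z (vN B v.1) ⊓ bmem x z := by
            rw [bmem_vN, iSup_inf_eq]
        _ ≤ _ := iSup_le fun v => h3 v.1 v.2
    calc beq y (vN B w) ⊓ bmem z y ⊓ bmem x z ≤ beq (vN B w) y ⊓ bmem x (vN B w) := by
          refine le_inf ?_ h4
          rw [beq_symm (vN B w)]
          exact inf_le_left.trans inf_le_left
      _ ≤ bmem x y := bmem_congr_right _ _ _
  refine ⟨fun y z hy hz => ?_, fun y hy z x hz hx => ?_⟩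
  · obtain ⟨y, rfl⟩ := cls_surj U y
    obtain ⟨z, rfl⟩ := cls_surj U z
    exact U.mono (U.inf_mem hy hz) (h1 y z)
  · obtain ⟨y, rfl⟩ := cls_surj U y
    obtain ⟨z, rfl⟩ := cls_surj U z
    obtain ⟨x, rfl⟩ := cls_surj U x
    exact U.mono (U.inf_mem (U.inf_mem hy hz) hx) (h2 y z x)

theorem CCC.not_isCountable_oT (h : CCC B) [Uncountable W] (U : UF B) :
    ¬ IsCountable (Emem U) (cls U (oT B W)) := by
  intro hc
  obtain ⟨c, hcU, hc⟩ := h.countable_support' (W := W) hc
  have hne : c ≠ ⊥ := by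
    rintro rfl
    exact U.bot_notMem hcU
  have : {w : W | c ⊓ bmem (vN B w) (oT B W) ≠ ⊥} = Set.univ := by
    ext w
    simp [vN_mem_oT, hne]
  rw [this, Set.countable_univ_iff] at hc
  exact not_countable hc

theorem CCC.isCard_oT (h : CCC B) [Uncountable W] (hW : ∀ w : W, Countable {v : W // v < w})
    (U : UF B) : IsCard (Emem U) (cls U (oT B W)) := by
  refine ⟨isOrd_oT U, ?_⟩
  rintro b hb ⟨f, hf⟩
  obtain ⟨b, rfl⟩ := cls_surj U b
  obtain ⟨f, rfl⟩ := cls_surj U f
  obtain ⟨t, ht⟩ := hasTV_isInj f (oT B W) b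
  have h1 : t ⊓ bmem b (oT B W) ≠ ⊥ := by
    intro h0
    have h2 := U.inf_mem ((ht U).mp hf) hb
    rw [h0] at h2
    exact U.bot_notMem h2
  rw [bmem_oT, inf_iSup_eq] at h1
  obtain ⟨w, hw⟩ : ∃ w : W, t ⊓ beq b (vN B w) ≠ ⊥ := by
    by_contra hcon
    push Not at hcon
    exact h1 (by simp [hcon])
  have := hW w
  have h3 : {w' : W | (t ⊓ beq b (vN B w)) ⊓ bmem (vN B w') (oT B W) ≠ ⊥}.Countable := by
    refine h.inj_support (K := {v : W // v < w}) (t ⊓ beq b (vN B w)) f (oT B W) b
      (fun v => vN B v.1) ?_ ?_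
    · intro z
      rw [← bmem_vN, inf_assoc]
      exact inf_le_right.trans (bmem_congr_right _ _ _)
    · intro V hV
      exact (ht V).mpr (V.inf_mem_iff.mp hV).1
  have : {w' : W | (t ⊓ beq b (vN B w)) ⊓ bmem (vN B w') (oT B W) ≠ ⊥} = Set.univ := by
    ext w'
    simp only [vN_mem_oT, inf_top_eq, ne_eq, Set.mem_ofPred_eq, Set.mem_univ, iff_true]
    exact hw
  rw [this, Set.countable_univ_iff] at h3
  exact not_countable h3

theorem isCountable_vN (U : UF B) (w : W) (hw : Countable {v : W // v < w}) :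
    IsCountable (Emem U) (cls U (vN B w)) := by
  refine isCountable_of_support (W := W) U.top_mem (vN B w) ?_ ?_
  · have h1 : bmem (vN B w) (oT B W) = ⊤ := vN_mem_oT w
    intro z hz
    exact (isOrd_oT U).1 _ z (by rw [Emem_cls, h1]; exact U.top_mem) hz
  · refine Set.Countable.mono ?_ (Set.countable_coe_iff.mp hw)
    intro w' hw'
    by_contra hlt
    apply hw'
    rw [top_inf_eq, bmem_vN]
    simp only [iSup_eq_bot]
    intro v
    refine vN_beq_of_ne ?_
    intro h
    apply hlt
    show w' < w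
    rw [h]
    exact v.2

theorem isCountable_of_mem_oT (hW : ∀ w : W, Countable {v : W // v < w}) (U : UF B) (y : Mod U)
    (hy : Emem U y (cls U (oT B W))) : IsCountable (Emem U) y := by
  obtain ⟨y, rfl⟩ := cls_surj U y
  choose χ hχ using fun x : BSet B => hasTV_isCountable x
  have hE : Ext χ := HasTV.ext_of (P := fun U x => IsCountable (Emem U) x) hχ
  refine (hχ y U).mpr (U.mono hy ?_)
  rw [bmem_oT]
  refine iSup_le fun w => ?_
  have h1 : χ (vN B w) = ⊤ :=
    top_unique (UF.le_of_forall fun V _ => (hχ _ V).mp (isCountable_vN V w (hW w)))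
  have h2 := hE (vN B w) y
  rw [h1, inf_top_eq, beq_symm] at h2
  exact h2

end Pool.Agent.BVM
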