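import Pool.Agent.Lib_helper75.BVM.Countable

/-!
A nontrivial automorphism of the power set of an uncountable cardinal modulo countable sets, in
the quotient models of a suitable Boolean algebra.
-/

set_option autoImplicit false

universe u v

namespace Pool.Agent.BVM

open BSet

/-- A complete Boolean algebra with the countable chain condition, with automorphisms `flip w`
such that each element is fixed by all but countably many of them, and with elements `bit w` that
`flip w` takes to their complements. -/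
structure FlipAlgebra (B : Type u) [CompleteBooleanAlgebra B] (W : Type u) where
  ccc : CCC B
  flip : W → B ≃o B
  bit : W → B
  flip_bit : ∀ w, flip w (bit w) = (bit w)ᶜ
  support : ∀ b : B, {w | flip w b ≠ b}.Countable

variable {B : Type u} [CompleteBooleanAlgebra B] {W : Type u} [LinearOrder W] [WellFoundedLT W]

namespace BSet

/-- The name of the subset of `W` given by the truth values `a`. -/
noncomputable def subN (a : W → B) : BSet B := mk W (fun w => vN B w) a

theorem bmem_subN (a : W → B) (x : BSet B) :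
    bmem x (subN a) = ⨆ w : W, a w ⊓ beq x (vN B w) := rfl

theorem le_bmem_subN (a : W → B) (w : W) : a w ≤ bmem (vN B w) (subN a) :=
  wt_le_bmem (subN a) w

theorem vN_mem_subN (a : W → B) (w : W) : bmem (vN B w) (subN a) = a w := by
  refine le_antisymm ?_ (le_bmem_subN a w)
  rw [bmem_subN]
  refine iSup_le fun v => ?_
  by_cases h : w = v
  · subst h; exact inf_le_left
  · rw [vN_beq_of_ne h, inf_bot_eq]; exact bot_le

theorem subN_sub (a : W → B) : bsub (subN a) (oT B W) = ⊤ := by
  refine top_unique (le_iInf fun (w : W) => ?_)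
  rw [le_himp_iff]
  show _ ≤ bmem (vN B w) (oT B W)
  rw [vN_mem_oT]
  exact le_top

theorem beq_subN (a b : W → B) : beq (subN a) (subN b) = ⨅ w, (a w ⇨ b w) ⊓ (b w ⇨ a w) := by
  rw [beq_eq]
  show (⨅ w : W, a w ⇨ bmem (vN B w) (subN b)) ⊓ (⨅ w : W, b w ⇨ bmem (vN B w) (subN a)) = _
  simp only [vN_mem_subN, iInf_inf_eq]

/-- A name for a subset of `W` is equal to the name given by its truth values. -/
theorem bsub_le_beq_subN (x : BSet B) :
    bsub x (oT B W) ≤ beq x (subN fun w : W => bmem (vN B w) x) := by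
  rw [beq_eq]
  refine le_inf (le_iInf fun i => ?_) (le_iInf fun w => ?_)
  · rw [le_himp_iff]
    refine le_trans (inf_le_inf_left _ (wt_le_bmem x i)) ((bsub_oT _).trans ?_)
    rw [bmem_subN]
    exact iSup_mono fun w => by rw [inf_comm]
  · rw [le_himp_iff]
    exact inf_le_right

end BSet

/-- Truth values of the symmetric difference. -/
def sdf (a b : B) : B := (a ⊓ bᶜ) ⊔ (b ⊓ aᶜ)

namespace FlipAlgebra

variable (F : FlipAlgebra B W)

/-- The map of the truth values. -/
def act (a : W → B) : W → B := fun w => F.flip w (a w)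

/-- The name of the lift of the automorphism. -/
noncomputable def piN : BSet B :=
  BSet.mk (W → B) (fun a => opair (subN a) (subN (F.act a))) (fun _ => ⊤)

theorem bmem_piN (x y : BSet B) :
    bmem (opair x y) F.piN = ⨆ a : W → B, beq x (subN a) ⊓ beq y (subN (F.act a)) := by
  show (⨆ a : W → B, ⊤ ⊓ beq (opair x y) (opair (subN a) (subN (F.act a)))) = _
  simp only [top_inf_eq, beq_opair]

omit [LinearOrder W] [WellFoundedLT W] in
theorem flip_inf (w : W) (a b : B) : F.flip w (a ⊓ b) = F.flip w a ⊓ F.flip w b := map_inf _ _ _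

omit [LinearOrder W] [WellFoundedLT W] in
theorem flip_compl (w : W) (a : B) : F.flip w aᶜ = (F.flip w a)ᶜ := map_compl' _ _

omit [LinearOrder W] [WellFoundedLT W] in
theorem flip_bot (w : W) : F.flip w ⊥ = ⊥ := map_bot _

omit [LinearOrder W] [WellFoundedLT W] in
theorem flip_top (w : W) : F.flip w ⊤ = ⊤ := map_top _

theorem act_vals {x y : BSet B} {a : W → B} {w : W}
    (hw : F.flip w (beq x (subN a) ⊓ beq y (subN (F.act a))) =
      beq x (subN a) ⊓ beq y (subN (F.act a))) :
    (beq x (subN a) ⊓ beq y (subN (F.act a))) ⊓ bmem (vN B w) y =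
      (beq x (subN a) ⊓ beq y (subN (F.act a))) ⊓ F.flip w (bmem (vN B w) x) := by
  set r : B := beq x (subN a) ⊓ beq y (subN (F.act a)) with hr
  have h1 : r ⊓ bmem (vN B w) x = r ⊓ a w := by
    refine le_antisymm (le_inf inf_le_left ?_) (le_inf inf_le_left ?_)
    · calc r ⊓ bmem (vN B w) x ≤ beq x (subN a) ⊓ bmem (vN B w) x :=
            inf_le_inf_right _ inf_le_left
        _ ≤ bmem (vN B w) (subN a) := bmem_congr_right _ _ _
        _ = a w := vN_mem_subN a w
    · calc r ⊓ a w ≤ beq (subN a) x ⊓ bmem (vN B w) (subN a) := by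
            rw [vN_mem_subN, beq_symm (subN a)]
            exact inf_le_inf_right _ inf_le_left
        _ ≤ bmem (vN B w) x := bmem_congr_right _ _ _
  have h2 : r ⊓ bmem (vN B w) y = r ⊓ F.flip w (a w) := by
    refine le_antisymm (le_inf inf_le_left ?_) (le_inf inf_le_left ?_)
    · calc r ⊓ bmem (vN B w) y ≤ beq y (subN (F.act a)) ⊓ bmem (vN B w) y :=
            inf_le_inf_right _ inf_le_right
        _ ≤ bmem (vN B w) (subN (F.act a)) := bmem_congr_right _ _ _
        _ = F.flip w (a w) := vN_mem_subN _ w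
    · calc r ⊓ F.flip w (a w) ≤ beq (subN (F.act a)) y ⊓ bmem (vN B w) (subN (F.act a)) := by
            rw [vN_mem_subN, beq_symm (subN _)]
            exact inf_le_inf_right _ inf_le_right
        _ ≤ bmem (vN B w) y := bmem_congr_right _ _ _
  calc r ⊓ bmem (vN B w) y = r ⊓ F.flip w (a w) := h2
    _ = F.flip w r ⊓ F.flip w (a w) := by rw [hw]
    _ = F.flip w (r ⊓ a w) := (F.flip_inf w _ _).symm
    _ = F.flip w (r ⊓ bmem (vN B w) x) := by rw [h1]
    _ = F.flip w r ⊓ F.flip w (bmem (vN B w) x) := F.flip_inf w _ _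
    _ = r ⊓ F.flip w (bmem (vN B w) x) := by rw [hw]

/-- For a pair in the relation, the truth values of the second component are, for all but
countably many `w`, the flips of those of the first component. -/
theorem rel_vals (x y : BSet B) :
    {w | ¬ (bmem (opair x y) F.piN ⊓ bmem (vN B w) y =
      bmem (opair x y) F.piN ⊓ F.flip w (bmem (vN B w) x))}.Countable := by
  obtain ⟨s, hs, hsup⟩ := F.ccc.exists_countable_sup
    (fun a : W → B => beq x (subN a) ⊓ beq y (subN (F.act a)))
  rw [← F.bmem_piN] at hsup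
  refine Set.Countable.mono ?_ (hs.biUnion fun a _ =>
    F.support (beq x (subN a) ⊓ beq y (subN (F.act a))))
  intro w hw
  by_contra hcon
  apply hw
  have h1 : ∀ a ∈ s, F.flip w (beq x (subN a) ⊓ beq y (subN (F.act a))) =
      beq x (subN a) ⊓ beq y (subN (F.act a)) := by
    intro a ha
    by_contra hne
    exact hcon (Set.mem_biUnion ha hne)
  rw [hsup, iSup₂_inf_eq, iSup₂_inf_eq]
  exact iSup_congr fun a => iSup_congr fun ha => F.act_vals (h1 a ha)

theorem isAutomorphism [Uncountable W] (U : UF B) :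
    IsAutomorphism (Emem U) (cls U (oT B W)) (cls U F.piN) := by
  refine ⟨?_, ?_, ?_, ?_⟩
  · intro p hp
    obtain ⟨p, rfl⟩ := cls_surj U p
    have h0 : bmem p F.piN = ⨆ a : W → B, beq p (opair (subN a) (subN (F.act a))) := by
      show (⨆ a : W → B, ⊤ ⊓ beq p (opair (subN a) (subN (F.act a)))) = _
      simp only [top_inf_eq]
    have h1 : bmem p F.piN ≤ ⨆ x, ⨆ z, (bsub x (oT B W) ⊓ bsub z (oT B W)) ⊓
        beq p (opair x z) := by
      rw [h0]
      refine iSup_le fun a => le_iSup₂_of_le (subN a) (subN (F.act a)) ?_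
      rw [subN_sub, subN_sub, top_inf_eq, top_inf_eq]
    have h2 := U.mono hp h1
    have hval : ∀ x z, ∀ V : UF B, ((IsSub (Emem V) (cls V x) (cls V (oT B W)) ∧
        IsSub (Emem V) (cls V z) (cls V (oT B W))) ∧
        IsPair (Emem V) (cls V p) (cls V x) (cls V z)) ↔
        (bsub x (oT B W) ⊓ bsub z (oT B W)) ⊓ beq p (opair x z) ∈ V := by
      intro x z V
      rw [V.inf_mem_iff, V.inf_mem_iff, isPair_iff, cls_eq, isSub_iff, isSub_iff]
    have hE2 : ∀ x, Ext fun z => (bsub x (oT B W) ⊓ bsub z (oT B W)) ⊓ beq p (opair x z) :=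
      fun x => HasTV.ext_of (P := fun V z => (IsSub (Emem V) (cls V x) (cls V (oT B W)) ∧
        IsSub (Emem V) z (cls V (oT B W))) ∧ IsPair (Emem V) (cls V p) (cls V x) z) (hval x)
    have hE1 : Ext fun x => ⨆ z, (bsub x (oT B W) ⊓ bsub z (oT B W)) ⊓ beq p (opair x z) := by
      refine Ext.iSup fun z => ?_
      exact HasTV.ext_of (P := fun V x => (IsSub (Emem V) x (cls V (oT B W)) ∧
        IsSub (Emem V) (cls V z) (cls V (oT B W))) ∧ IsPair (Emem V) (cls V p) x (cls V z))
        (fun x V => hval x z V)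
    obtain ⟨x, hx⟩ := (iSup_mem_iff hE1).mp h2
    obtain ⟨z, hz⟩ := (iSup_mem_iff (hE2 x)).mp hx
    rw [← hval] at hz
    exact ⟨_, _, hz.1.1, hz.1.2, hz.2⟩
  · intro a ha
    obtain ⟨a, rfl⟩ := cls_surj U a
    rw [isSub_iff] at ha
    refine ⟨cls U (subN (F.act fun w => bmem (vN B w) a)), ?_⟩
    rw [rel_iff, F.bmem_piN]
    refine U.mono (U.mono ha (bsub_le_beq_subN a)) ?_
    refine le_iSup_of_le (fun w => bmem (vN B w) a) ?_
    rw [beq_refl, inf_top_eq]
  · intro b hb
    obtain ⟨b, rfl⟩ := cls_surj U b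
    rw [isSub_iff] at hb
    let a : W → B := fun w => (F.flip w).symm (bmem (vN B w) b)
    have hact : F.act a = fun w => bmem (vN B w) b := by
      funext w
      show F.flip w ((F.flip w).symm (bmem (vN B w) b)) = _
      simp
    refine ⟨cls U (subN a), ?_⟩
    rw [rel_iff, F.bmem_piN]
    refine U.mono (U.mono hb (bsub_le_beq_subN b)) ?_
    refine le_iSup_of_le a ?_
    rw [beq_refl, top_inf_eq, hact]
  · intro a b a' b' h h'
    obtain ⟨a, rfl⟩ := cls_surj U a
    obtain ⟨b, rfl⟩ := cls_surj U b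
    obtain ⟨a', rfl⟩ := cls_surj U a'
    obtain ⟨b', rfl⟩ := cls_surj U b'
    have hsubs : ∀ x y : BSet B, Rel (Emem U) (cls U F.piN) (cls U x) (cls U y) →
        IsSub (Emem U) (cls U x) (cls U (oT B W)) ∧
        IsSub (Emem U) (cls U y) (cls U (oT B W)) := by
      intro x y hxy
      rw [rel_iff] at hxy
      have h1 : bmem (opair x y) F.piN ≤ bsub x (oT B W) ⊓ bsub y (oT B W) := by
        rw [F.bmem_piN]
        refine iSup_le fun a => ?_
        have hE : Ext fun z : BSet B => bsub z (oT B W) :=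
          HasTV.ext_of (P := fun V z => IsSub (Emem V) z (cls V (oT B W)))
            (fun z V => isSub_iff)
        refine inf_le_inf ?_ ?_
        · have h3 : beq (subN a) x ⊓ bsub (subN a) (oT B W) ≤ bsub x (oT B W) := hE (subN a) x
          rw [subN_sub, inf_top_eq, beq_symm] at h3
          exact h3
        · have h3 : beq (subN (F.act a)) y ⊓ bsub (subN (F.act a)) (oT B W) ≤
              bsub y (oT B W) := hE (subN (F.act a)) y
          rw [subN_sub, inf_top_eq, beq_symm] at h3
          exact h3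
      have h2 := U.inf_mem_iff.mp (U.mono hxy h1)
      exact ⟨isSub_iff.mpr h2.1, isSub_iff.mpr h2.2⟩
    -- reformulation of `AlmostSub`
    have hkey : ∀ x x' : BSet B, IsSub (Emem U) (cls U x) (cls U (oT B W)) →
        (AlmostSub (Emem U) (cls U x) (cls U x') ↔
          ∃ c ∈ U, {w : W | c ⊓ (bmem (vN B w) x ⊓ (bmem (vN B w) x')ᶜ) ≠ ⊥}.Countable) := by
      intro x x' hx
      have hE : Ext fun z : BSet B => (bmem z x')ᶜ := (ext_bmem_left x').compl
      have hd : ∀ V : UF B, IsDiff (Emem V) (cls V (sep x fun z => (bmem z x')ᶜ)) (cls V x)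
          (cls V x') := by
        intro V z
        obtain ⟨z, rfl⟩ := cls_surj V z
        rw [Emem_cls, bmem_sep x hE, V.inf_mem_iff, V.compl_mem_iff]
        exact Iff.rfl
      constructor
      · rintro ⟨d, hd1, hd2⟩
        have : d = cls U (sep x fun z => (bmem z x')ᶜ) :=
          mod_ext _ _ fun z => (hd1 z).trans (hd U z).symm
        subst this
        obtain ⟨c, hc, hc'⟩ := F.ccc.countable_support' (W := W) hd2
        refine ⟨c, hc, ?_⟩
        simpa only [bmem_sep x hE] using hc'
      · rintro ⟨c, hc, hc'⟩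
        refine ⟨_, hd U, isCountable_of_support (W := W) hc _ ?_ ?_⟩
        · intro z hz
          exact hx z ((hd U z).mp hz).1
        · simpa only [bmem_sep x hE] using hc'
    rw [hkey a a' (hsubs a b h).1, hkey b b' (hsubs a b h).2]
    rw [rel_iff] at h h'
    set r : B := bmem (opair a b) F.piN with hr
    set r' : B := bmem (opair a' b') F.piN with hr'
    have hcount := (F.rel_vals a b).union (F.rel_vals a' b')
    have hmain : ∀ (c : B) (w : W), F.flip w (c ⊓ (r ⊓ r')) = c ⊓ (r ⊓ r') →
        (r ⊓ bmem (vN B w) b = r ⊓ F.flip w (bmem (vN B w) a)) →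
        (r' ⊓ bmem (vN B w) b' = r' ⊓ F.flip w (bmem (vN B w) a')) →
        F.flip w ((c ⊓ (r ⊓ r')) ⊓ (bmem (vN B w) a ⊓ (bmem (vN B w) a')ᶜ)) =
          (c ⊓ (r ⊓ r')) ⊓ (bmem (vN B w) b ⊓ (bmem (vN B w) b')ᶜ) := by
      intro c w h1 h2 h3
      rw [F.flip_inf, h1, F.flip_inf, F.flip_compl]
      refine UF.eq_of_forall fun V => ?_
      have h2' : r ∈ V → (bmem (vN B w) b ∈ V ↔ F.flip w (bmem (vN B w) a) ∈ V) := by
        intro hrV
        constructor
        · intro hh
          have := V.inf_mem hrV hh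
          rw [h2] at this
          exact (V.inf_mem_iff.mp this).2
        · intro hh
          have := V.inf_mem hrV hh
          rw [← h2] at this
          exact (V.inf_mem_iff.mp this).2
      have h3' : r' ∈ V → (bmem (vN B w) b' ∈ V ↔ F.flip w (bmem (vN B w) a') ∈ V) := by
        intro hrV
        constructor
        · intro hh
          have := V.inf_mem hrV hh
          rw [h3] at this
          exact (V.inf_mem_iff.mp this).2
        · intro hh
          have := V.inf_mem hrV hh
          rw [← h3] at this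
          exact (V.inf_mem_iff.mp this).2
      simp only [V.inf_mem_iff, V.compl_mem_iff]
      constructor
      · rintro ⟨⟨hc, hr1, hr2⟩, ha1, ha2⟩
        exact ⟨⟨hc, hr1, hr2⟩, (h2' hr1).mpr ha1, fun hh => ha2 ((h3' hr2).mp hh)⟩
      · rintro ⟨⟨hc, hr1, hr2⟩, ha1, ha2⟩
        exact ⟨⟨hc, hr1, hr2⟩, (h2' hr1).mp ha1, fun hh => ha2 ((h3' hr2).mpr hh)⟩
    constructor
    · rintro ⟨c, hc, hK⟩
      refine ⟨c ⊓ (r ⊓ r'), U.inf_mem hc (U.inf_mem h h'), ?_⟩
      refine Set.Countable.mono ?_ ((hK.union hcount).union (F.support (c ⊓ (r ⊓ r'))))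
      intro w hw
      by_contra hcon
      simp only [Set.mem_union, Set.mem_ofPred_eq, not_or, not_not, ne_eq] at hcon
      obtain ⟨⟨h1, h2, h3⟩, h4⟩ := hcon
      apply hw
      rw [← hmain c w h4 h2 h3]
      have : (c ⊓ (r ⊓ r')) ⊓ (bmem (vN B w) a ⊓ (bmem (vN B w) a')ᶜ) = ⊥ := by
        rw [← le_bot_iff, ← h1]
        exact inf_le_inf_right _ inf_le_left
      rw [this, F.flip_bot]
    · rintro ⟨c, hc, hK⟩
      refine ⟨c ⊓ (r ⊓ r'), U.inf_mem hc (U.inf_mem h h'), ?_⟩
      refine Set.Countable.mono ?_ ((hK.union hcount).union (F.support (c ⊓ (r ⊓ r'))))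
      intro w hw
      by_contra hcon
      simp only [Set.mem_union, Set.mem_ofPred_eq, not_or, not_not, ne_eq] at hcon
      obtain ⟨⟨h1, h2, h3⟩, h4⟩ := hcon
      apply hw
      have h5 : F.flip w ((c ⊓ (r ⊓ r')) ⊓ (bmem (vN B w) a ⊓ (bmem (vN B w) a')ᶜ)) = ⊥ := by
        rw [hmain c w h4 h2 h3, ← le_bot_iff, ← h1]
        exact inf_le_inf_right _ inf_le_left
      rw [← F.flip_bot w] at h5
      exact (F.flip w).injective h5

end FlipAlgebra

end Pool.Agent.BVM
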