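import Mathlib

/-!
Models of ZFC, and set-theoretic notions in a structure `(M, E)`.
-/

set_option autoImplicit false

universe v

namespace Pool.Agent.BVM

/-- First-order formulas in the language of set theory. The variables are the natural numbers. -/
inductive Fml
  | mem (i j : ℕ) : Fml
  | eq (i j : ℕ) : Fml
  | neg (φ : Fml) : Fml
  | and (φ ψ : Fml) : Fml
  | all (i : ℕ) (φ : Fml) : Fml

/-- Satisfaction of a formula in a structure `(M, E)` under an assignment of the variables. -/
def Fml.Sat {M : Type v} (E : M → M → Prop) : Fml → (ℕ → M) → Prop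
  | .mem i j, v => E (v i) (v j)
  | .eq i j, v => v i = v j
  | .neg φ, v => ¬ φ.Sat E v
  | .and φ ψ, v => φ.Sat E v ∧ ψ.Sat E v
  | .all i φ, v => ∀ x : M, φ.Sat E (Function.update v i x)

/-- `(M, E)` is a model of ZFC. -/
structure ModelZFC {M : Type v} (E : M → M → Prop) : Prop where
  extensionality : ∀ x y, (∀ z, E z x ↔ E z y) → x = y
  foundation : ∀ x, (∃ y, E y x) → ∃ y, E y x ∧ ∀ z, E z x → ¬ E z y
  pairing : ∀ x y, ∃ p, ∀ z, E z p ↔ (z = x ∨ z = y)
  union : ∀ x, ∃ s, ∀ z, E z s ↔ ∃ y, E y x ∧ E z y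
  powerset : ∀ x, ∃ p, ∀ z, E z p ↔ ∀ w, E w z → E w x
  infinity : ∃ w, (∃ e, E e w ∧ ∀ z, ¬ E z e) ∧
    ∀ x, E x w → ∃ s, E s w ∧ ∀ z, E z s ↔ (E z x ∨ z = x)
  separation : ∀ (φ : Fml) (v : ℕ → M) (a : M),
    ∃ b, ∀ z, E z b ↔ (E z a ∧ φ.Sat E (Function.update v 0 z))
  replacement : ∀ (φ : Fml) (v : ℕ → M) (a : M),
    (∀ x, E x a → ∃! y, φ.Sat E (Function.update (Function.update v 0 x) 1 y)) →
      ∃ b, ∀ y, E y b ↔ ∃ x, E x a ∧ φ.Sat E (Function.update (Function.update v 0 x) 1 y)
  choice : ∀ a, (∀ x, E x a → ∃ y, E y x) →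
    (∀ x y z, E x a → E y a → E z x → E z y → x = y) →
      ∃ c, ∀ x, E x a → ∃! z, E z x ∧ E z c

section Notions

variable {M : Type v} (E : M → M → Prop)

/-- `x` is a subset of `y`. -/
def IsSub (x y : M) : Prop := ∀ z, E z x → E z y

/-- `p` is the unordered pair of `x` and `y`. -/
def IsUPair (p x y : M) : Prop := ∀ z, E z p ↔ (z = x ∨ z = y)

/-- `p` is the (Kuratowski) ordered pair of `x` and `y`. -/
def IsPair (p x y : M) : Prop := ∀ z, E z p ↔ (IsUPair E z x x ∨ IsUPair E z x y)

/-- The ordered pair of `x` and `y` is an element of `f`. -/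
def Rel (f x y : M) : Prop := ∃ p, IsPair E p x y ∧ E p f

/-- `f` is a function from `a` to `b`. -/
def IsFun (f a b : M) : Prop :=
  (∀ p, E p f → ∃ x y, E x a ∧ E y b ∧ IsPair E p x y) ∧ ∀ x, E x a → ∃! y, Rel E f x y

/-- `f` is an injective function from `a` to `b`. -/
def IsInj (f a b : M) : Prop :=
  IsFun E f a b ∧ ∀ x x' y, Rel E f x y → Rel E f x' y → x = x'

/-- `s` is the successor `x ∪ {x}` of `x`. -/
def IsSucc (s x : M) : Prop := ∀ z, E z s ↔ (E z x ∨ z = x)

/-- `w` contains the empty set and is closed under successors. -/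
def IsInductive (w : M) : Prop :=
  (∃ e, E e w ∧ ∀ z, ¬ E z e) ∧ ∀ x, E x w → ∃ s, E s w ∧ IsSucc E s x

/-- `w` is the set of natural numbers. -/
def IsOmega (w : M) : Prop := IsInductive E w ∧ ∀ w', IsInductive E w' → IsSub E w w'

/-- `a` is countable: there is an injection from `a` to the set of natural numbers. -/
def IsCountable (a : M) : Prop := ∃ w f, IsOmega E w ∧ IsInj E f a w

/-- `x` is transitive. -/
def IsTrans (x : M) : Prop := ∀ y z, E y x → E z y → E z x

/-- `x` is an ordinal: a transitive set of transitive sets. -/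
def IsOrd (x : M) : Prop := IsTrans E x ∧ ∀ y, E y x → IsTrans E y

/-- `x` is a cardinal: an ordinal without injection into a smaller ordinal. -/
def IsCard (x : M) : Prop := IsOrd E x ∧ ∀ y, E y x → ¬ ∃ f, IsInj E f x y

/-- `d` is the difference of `a` and `b`. -/
def IsDiff (d a b : M) : Prop := ∀ z, E z d ↔ (E z a ∧ ¬ E z b)

/-- `a` is contained in `b` up to a countable set. -/
def AlmostSub (a b : M) : Prop := ∃ d, IsDiff E d a b ∧ IsCountable E d

/-- `c` is the preimage of `a` under the function `e` from `l` to `l`. -/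
def IsPreimage (c e l a : M) : Prop := ∀ x, E x c ↔ (E x l ∧ ∃ y, Rel E e x y ∧ E y a)

/-- The set `π` of pairs of subsets of `l` induces an automorphism of the Boolean algebra of all
subsets of `l` modulo the ideal of countable sets: the automorphism that takes the class of `a`
to the class of `b` whenever the pair of `a` and `b` is in `π`. -/
structure IsAutomorphism (l π : M) : Prop where
  pairs : ∀ p, E p π → ∃ a b, IsSub E a l ∧ IsSub E b l ∧ IsPair E p a b
  total : ∀ a, IsSub E a l → ∃ b, Rel E π a b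
  surjective : ∀ b, IsSub E b l → ∃ a, Rel E π a b
  order : ∀ a b a' b', Rel E π a b → Rel E π a' b' → (AlmostSub E a a' ↔ AlmostSub E b b')

/-- The automorphism induced by `π` is trivial: it takes the class of each `a` to the class of the
preimage of `a` under a function `e` from `l` to `l`. -/
def IsTrivial (l π : M) : Prop :=
  ∃ e, IsFun E e l l ∧ ∀ a b, Rel E π a b → ∀ c, IsPreimage E c e l a →
    AlmostSub E b c ∧ AlmostSub E c b

end Notions

end Pool.Agent.BVM
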