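import Pool.Agent.Lib_helper75.BVM.Names
import Pool.Agent.Lib_helper75.BVM.Notions

/-!
Formulas of set theory, their truth values, the quotient of the universe of names by an
ultrafilter, and the theorem of Łoś.
-/

set_option autoImplicit false

universe u v

namespace Pool.Agent.BVM

/-- Existential quantification. -/
def Fml.ex (i : ℕ) (φ : Fml) : Fml := .neg (.all i (.neg φ))

/-- Implication. -/
def Fml.imp (φ ψ : Fml) : Fml := .neg (.and φ (.neg ψ))

/-- Disjunction. -/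
def Fml.or (φ ψ : Fml) : Fml := .neg (.and (.neg φ) (.neg ψ))

/-- Equivalence. -/
def Fml.iff (φ ψ : Fml) : Fml := .and (φ.imp ψ) (ψ.imp φ)

section Sat

variable {M : Type v} (E : M → M → Prop) (v : ℕ → M)

@[simp] theorem sat_mem (i j : ℕ) : (Fml.mem i j).Sat E v ↔ E (v i) (v j) := Iff.rfl
@[simp] theorem sat_eq (i j : ℕ) : (Fml.eq i j).Sat E v ↔ v i = v j := Iff.rfl
@[simp] theorem sat_neg (φ : Fml) : (Fml.neg φ).Sat E v ↔ ¬ φ.Sat E v := Iff.rfl
@[simp] theorem sat_and (φ ψ : Fml) : (Fml.and φ ψ).Sat E v ↔ φ.Sat E v ∧ ψ.Sat E v := Iff.rfl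
@[simp] theorem sat_all (i : ℕ) (φ : Fml) :
    (Fml.all i φ).Sat E v ↔ ∀ x : M, φ.Sat E (Function.update v i x) := Iff.rfl
@[simp] theorem sat_ex (i : ℕ) (φ : Fml) :
    (Fml.ex i φ).Sat E v ↔ ∃ x : M, φ.Sat E (Function.update v i x) := by
  simp [Fml.ex]
@[simp] theorem sat_imp (φ ψ : Fml) : (Fml.imp φ ψ).Sat E v ↔ (φ.Sat E v → ψ.Sat E v) := by
  simp [Fml.imp]
@[simp] theorem sat_or (φ ψ : Fml) : (Fml.or φ ψ).Sat E v ↔ (φ.Sat E v ∨ ψ.Sat E v) := by
  simp [Fml.or]; tauto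
@[simp] theorem sat_iff (φ ψ : Fml) : (Fml.iff φ ψ).Sat E v ↔ (φ.Sat E v ↔ ψ.Sat E v) := by
  simp [Fml.iff]; tauto

end Sat

section Val

variable {B : Type u} [CompleteBooleanAlgebra B]

open BSet

/-- The truth value of a formula. -/
def Fml.val : Fml → (ℕ → BSet B) → B
  | .mem i j, v => bmem (v i) (v j)
  | .eq i j, v => beq (v i) (v j)
  | .neg φ, v => (φ.val v)ᶜ
  | .and φ ψ, v => φ.val v ⊓ ψ.val v
  | .all i φ, v => ⨅ x : BSet B, φ.val (Function.update v i x)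

theorem Fml.val_congr (φ : Fml) (v w : ℕ → BSet B) (b : B) (h : ∀ i, b ≤ beq (v i) (w i)) :
    b ⊓ φ.val v ≤ φ.val w := by
  induction φ generalizing v w b with
  | mem i j =>
    show b ⊓ bmem (v i) (v j) ≤ bmem (w i) (w j)
    calc b ⊓ bmem (v i) (v j) ≤ beq (v j) (w j) ⊓ (beq (v i) (w i) ⊓ bmem (v i) (v j)) :=
          le_inf (inf_le_left.trans (h j)) (inf_le_inf_right _ (h i))
      _ ≤ beq (v j) (w j) ⊓ bmem (w i) (v j) := inf_le_inf_left _ (bmem_congr_left _ _ _)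
      _ ≤ _ := bmem_congr_right _ _ _
  | eq i j =>
    show b ⊓ beq (v i) (v j) ≤ beq (w i) (w j)
    refine beq_trans' (y := v i) ?_ (beq_trans' (y := v j) inf_le_right (inf_le_left.trans (h j)))
    rw [beq_symm (w i)]
    exact inf_le_left.trans (h i)
  | neg φ ih =>
    show b ⊓ (φ.val v)ᶜ ≤ (φ.val w)ᶜ
    rw [le_compl_iff_disjoint_right, disjoint_iff_inf_le]
    have h1 : b ⊓ φ.val w ≤ φ.val v := ih w v b (fun i => by rw [beq_symm]; exact h i)
    calc b ⊓ (φ.val v)ᶜ ⊓ φ.val w = (φ.val v)ᶜ ⊓ (b ⊓ φ.val w) := by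
          rw [inf_comm b, inf_assoc]
      _ ≤ (φ.val v)ᶜ ⊓ φ.val v := inf_le_inf_left _ h1
      _ ≤ ⊥ := by simp
  | and φ ψ ih1 ih2 =>
    exact le_inf (le_trans (inf_le_inf_left _ inf_le_left) (ih1 v w b h))
      (le_trans (inf_le_inf_left _ inf_le_right) (ih2 v w b h))
  | all i φ ih =>
    show b ⊓ (⨅ x, φ.val (Function.update v i x)) ≤ ⨅ x, φ.val (Function.update w i x)
    refine le_iInf fun x => le_trans (inf_le_inf_left _ (iInf_le _ x)) (ih _ _ b fun j => ?_)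
    by_cases hj : j = i
    · subst hj
      simp [beq_refl]
    · simp [Function.update_of_ne hj, h j]

theorem Fml.ext_val (φ : Fml) (v : ℕ → BSet B) (i : ℕ) :
    Ext (fun x => φ.val (Function.update v i x)) := by
  intro x y
  refine φ.val_congr _ _ _ fun j => ?_
  by_cases hj : j = i
  · subst hj; simp
  · simp [Function.update_of_ne hj, beq_refl]

variable (v : ℕ → BSet B)

@[simp] theorem val_mem (i j : ℕ) : (Fml.mem i j).val v = bmem (v i) (v j) := rfl
@[simp] theorem val_eq (i j : ℕ) : (Fml.eq i j).val v = beq (v i) (v j) := rfl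
@[simp] theorem val_neg (φ : Fml) : (Fml.neg φ).val v = (φ.val v)ᶜ := rfl
@[simp] theorem val_and (φ ψ : Fml) : (Fml.and φ ψ).val v = φ.val v ⊓ ψ.val v := rfl
@[simp] theorem val_all (i : ℕ) (φ : Fml) :
    (Fml.all i φ).val v = ⨅ x : BSet B, φ.val (Function.update v i x) := rfl
@[simp] theorem val_ex (i : ℕ) (φ : Fml) :
    (Fml.ex i φ).val v = ⨆ x : BSet B, φ.val (Function.update v i x) := by
  simp [Fml.ex, compl_iInf]
@[simp] theorem val_imp (φ ψ : Fml) : (Fml.imp φ ψ).val v = (φ.val v ⇨ ψ.val v) := by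
  simp [Fml.imp, himp_eq, sup_comm]
@[simp] theorem val_or (φ ψ : Fml) : (Fml.or φ ψ).val v = φ.val v ⊔ ψ.val v := by
  simp [Fml.or]
@[simp] theorem val_iff (φ ψ : Fml) :
    (Fml.iff φ ψ).val v = (φ.val v ⇨ ψ.val v) ⊓ (ψ.val v ⇨ φ.val v) := by
  simp [Fml.iff]

end Val

/-! ### Ultrafilters -/

/-- Ultrafilters of a Boolean algebra. -/
structure UF (B : Type u) [CompleteBooleanAlgebra B] where
  /-- the elements of the ultrafilter -/
  carrier : Set B
  bot_notMem' : ⊥ ∉ carrier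
  mono' : ∀ {a b : B}, a ∈ carrier → a ≤ b → b ∈ carrier
  inf_mem' : ∀ {a b : B}, a ∈ carrier → b ∈ carrier → a ⊓ b ∈ carrier
  compl_mem' : ∀ a : B, a ∈ carrier ∨ aᶜ ∈ carrier

namespace UF

variable {B : Type u} [CompleteBooleanAlgebra B]

instance : Membership B (UF B) := ⟨fun U b => b ∈ U.carrier⟩

variable (U : UF B)

theorem bot_notMem : (⊥ : B) ∉ U := U.bot_notMem'

theorem mono {a b : B} (h : a ∈ U) (hab : a ≤ b) : b ∈ U := U.mono' h hab

theorem inf_mem {a b : B} (h : a ∈ U) (h' : b ∈ U) : a ⊓ b ∈ U := U.inf_mem' h h'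

theorem top_mem : (⊤ : B) ∈ U := by
  rcases U.compl_mem' (⊤ : B) with h | h
  · exact h
  · exact absurd (by simpa using h) U.bot_notMem'

theorem compl_mem_iff {a : B} : aᶜ ∈ U ↔ a ∉ U := by
  constructor
  · intro h h'
    exact U.bot_notMem (by simpa using U.inf_mem h' h)
  · intro h
    exact (U.compl_mem' a).resolve_left h

theorem inf_mem_iff {a b : B} : a ⊓ b ∈ U ↔ a ∈ U ∧ b ∈ U :=
  ⟨fun h => ⟨U.mono h inf_le_left, U.mono h inf_le_right⟩, fun h => U.inf_mem h.1 h.2⟩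

theorem sup_mem_iff {a b : B} : a ⊔ b ∈ U ↔ a ∈ U ∨ b ∈ U := by
  have h : a ⊔ b = (aᶜ ⊓ bᶜ)ᶜ := by simp
  rw [h, compl_mem_iff, inf_mem_iff, compl_mem_iff, compl_mem_iff]
  tauto

theorem himp_mem_iff {a b : B} : (a ⇨ b) ∈ U ↔ (a ∈ U → b ∈ U) := by
  rw [himp_eq, sup_mem_iff, compl_mem_iff]
  tauto

/-- Every nonzero element is in an ultrafilter. -/
theorem exists_mem {b : B} (hb : b ≠ ⊥) : ∃ U : UF B, b ∈ U := by
  classical
  let P : Set B → Prop := fun F => b ∈ F ∧ ⊥ ∉ F ∧ (∀ x y, x ∈ F → x ≤ y → y ∈ F) ∧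
    (∀ x y, x ∈ F → y ∈ F → x ⊓ y ∈ F)
  obtain ⟨F, hF⟩ := zorn_subset {F | P F} (by
    intro c hc hchain
    by_cases hne : c.Nonempty
    · refine ⟨⋃₀ c, ⟨?_, ?_, ?_, ?_⟩, fun s hs => Set.subset_sUnion_of_mem hs⟩
      · obtain ⟨F, hF⟩ := hne
        exact ⟨F, hF, (hc hF).1⟩
      · rintro ⟨F, hF, h⟩
        exact (hc hF).2.1 h
      · rintro x y ⟨F, hF, h⟩ hxy
        exact ⟨F, hF, (hc hF).2.2.1 x y h hxy⟩
      · rintro x y ⟨F, hF, h⟩ ⟨G, hG, h'⟩
        rcases hchain.total hF hG with hFG | hFG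
        · exact ⟨G, hG, (hc hG).2.2.2 x y (hFG h) h'⟩
        · exact ⟨F, hF, (hc hF).2.2.2 x y h (hFG h')⟩
    · refine ⟨Set.Ici b, ⟨le_refl b, ?_, ?_, ?_⟩, ?_⟩
      · intro h
        exact hb (le_bot_iff.mp h)
      · intro x y hx hxy
        exact le_trans hx hxy
      · intro x y hx hy
        exact le_inf hx hy
      · intro s hs
        exact absurd ⟨s, hs⟩ hne)
  obtain ⟨⟨hbF, hbot, hup, hinf⟩, hmax⟩ := hF
  refine ⟨⟨F, hbot, fun {x y} => hup x y, fun {x y} => hinf x y, fun a => ?_⟩, hbF⟩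
  by_contra hcon
  push Not at hcon
  obtain ⟨h1, h2⟩ := hcon
  -- the filter generated by `F` and `a`
  have hG : P {y | ∃ x ∈ F, x ⊓ a ≤ y} → False := by
    intro hP
    have hsub : F ⊆ {y | ∃ x ∈ F, x ⊓ a ≤ y} := fun x hx => ⟨x, hx, inf_le_left⟩
    exact h1 (hmax hP hsub ⟨b, hbF, inf_le_right⟩)
  apply hG
  refine ⟨⟨b, hbF, inf_le_left⟩, ?_, ?_, ?_⟩
  · rintro ⟨x, hx, h⟩
    apply h2
    refine hup x _ hx ?_
    rw [le_compl_iff_disjoint_right, disjoint_iff_inf_le]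
    exact h
  · rintro x y ⟨z, hz, h⟩ hxy
    exact ⟨z, hz, h.trans hxy⟩
  · rintro x y ⟨z, hz, h⟩ ⟨w, hw, h'⟩
    refine ⟨z ⊓ w, hinf z w hz hw, le_inf ?_ ?_⟩
    · exact (inf_le_inf_right _ inf_le_left).trans h
    · exact (inf_le_inf_right _ inf_le_right).trans h'

/-- An inequality can be checked on ultrafilters. -/
theorem le_of_forall {a b : B} (h : ∀ U : UF B, a ∈ U → b ∈ U) : a ≤ b := by
  by_contra hab
  have h1 : a ⊓ bᶜ ≠ ⊥ := by
    intro h0
    apply hab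
    rw [← disjoint_compl_right_iff, disjoint_iff]
    exact h0
  obtain ⟨U, hU⟩ := exists_mem h1
  obtain ⟨h2, h3⟩ := U.inf_mem_iff.mp hU
  exact U.compl_mem_iff.mp h3 (h U h2)

theorem eq_of_forall {a b : B} (h : ∀ U : UF B, a ∈ U ↔ b ∈ U) : a = b :=
  le_antisymm (le_of_forall fun U => (h U).mp) (le_of_forall fun U => (h U).mpr)

end UF

/-! ### The quotient model -/

open BSet

variable {B : Type u} [CompleteBooleanAlgebra B] (U : UF B)

/-- Equality modulo the ultrafilter. -/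
def uSetoid : Setoid (BSet B) where
  r x y := beq x y ∈ U
  iseqv := {
    refl := fun x => by rw [beq_refl]; exact U.top_mem
    symm := fun {x y} h => by rw [beq_symm]; exact h
    trans := fun {x y z} h h' => U.mono (U.inf_mem h h') (beq_trans x y z) }

/-- The quotient of the universe of names by an ultrafilter. -/
def Mod : Type (u + 1) := Quotient (uSetoid U)

/-- The class of a name. -/
def cls (x : BSet B) : Mod U := Quotient.mk (uSetoid U) x

theorem cls_surj (x : Mod U) : ∃ y : BSet B, cls U y = x := Quotient.exists_rep x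

theorem cls_eq {x y : BSet B} : cls U x = cls U y ↔ beq x y ∈ U :=
  ⟨fun h => Quotient.exact h, fun h => Quotient.sound h⟩

/-- Membership of the quotient model. -/
def Emem : Mod U → Mod U → Prop :=
  Quotient.lift₂ (fun x y => bmem x y ∈ U) (by
    intro x y x' y' (h : beq x x' ∈ U) (h' : beq y y' ∈ U)
    apply propext
    constructor
    · intro h1
      have h2 := U.mono (U.inf_mem h h1) (bmem_congr_left _ _ _)
      exact U.mono (U.inf_mem h' h2) (bmem_congr_right _ _ _)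
    · intro h1
      rw [beq_symm] at h h'
      have h2 := U.mono (U.inf_mem h h1) (bmem_congr_left _ _ _)
      exact U.mono (U.inf_mem h' h2) (bmem_congr_right _ _ _))

theorem Emem_cls {x y : BSet B} : Emem U (cls U x) (cls U y) ↔ bmem x y ∈ U := Iff.rfl

variable {U}

theorem iSup_mem_iff {φ : BSet B → B} (h : Ext φ) : (⨆ x, φ x) ∈ U ↔ ∃ x, φ x ∈ U := by
  constructor
  · intro h1
    obtain ⟨x, hx⟩ := exists_eq_iSup h
    exact ⟨x, by rw [hx]; exact h1⟩
  · rintro ⟨x, hx⟩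
    exact U.mono hx (le_iSup φ x)

theorem iInf_mem_iff {φ : BSet B → B} (h : Ext φ) : (⨅ x, φ x) ∈ U ↔ ∀ x, φ x ∈ U := by
  have h1 : (⨅ x, φ x) = (⨆ x, (φ x)ᶜ)ᶜ := by simp [compl_iSup]
  rw [h1, U.compl_mem_iff, iSup_mem_iff h.compl]
  push Not
  simp only [U.compl_mem_iff, not_not]

theorem iSup_mem_iff' {φ : BSet B → B} (h : Ext φ) (P : Mod U → Prop)
    (hP : ∀ x, P (cls U x) ↔ φ x ∈ U) : (⨆ x, φ x) ∈ U ↔ ∃ x, P x := by
  rw [iSup_mem_iff h]
  constructor
  · rintro ⟨x, hx⟩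
    exact ⟨cls U x, (hP x).mpr hx⟩
  · rintro ⟨x, hx⟩
    obtain ⟨y, rfl⟩ := cls_surj U x
    exact ⟨y, (hP y).mp hx⟩

theorem update_cls (v : ℕ → BSet B) (i : ℕ) (x : BSet B) :
    (fun j => cls U (Function.update v i x j)) =
      Function.update (fun j => cls U (v j)) i (cls U x) := by
  funext j
  by_cases hj : j = i
  · subst hj; simp
  · simp [Function.update_of_ne hj]

/-- The theorem of Łoś. -/
theorem los (φ : Fml) (v : ℕ → BSet B) :
    φ.Sat (Emem U) (fun i => cls U (v i)) ↔ φ.val v ∈ U := by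
  induction φ generalizing v with
  | mem i j => exact Emem_cls U
  | eq i j => exact cls_eq U
  | neg φ ih => rw [sat_neg, val_neg, U.compl_mem_iff, ih]
  | and φ ψ ih1 ih2 => rw [sat_and, val_and, U.inf_mem_iff, ih1, ih2]
  | all i φ ih =>
    rw [sat_all, val_all, iInf_mem_iff (φ.ext_val v i)]
    constructor
    · intro h x
      have := h (cls U x)
      rw [← update_cls] at this
      exact (ih _).mp this
    · intro h x
      obtain ⟨y, rfl⟩ := cls_surj U x
      rw [← update_cls]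
      exact (ih _).mpr (h y)

/-- Truth in the quotient model, for assignments in the model. -/
theorem los' (φ : Fml) (v : ℕ → Mod U) (w : ℕ → BSet B) (h : ∀ i, cls U (w i) = v i) :
    φ.Sat (Emem U) v ↔ φ.val w ∈ U := by
  have : v = fun i => cls U (w i) := funext fun i => (h i).symm
  rw [this]
  exact los φ w

end Pool.Agent.BVM
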