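import Mathlib

/-!
Boolean-valued sets (names) over a complete Boolean algebra.
-/

set_option autoImplicit false

universe u

namespace Pool.Agent.BVM

/-- Names for sets, with truth values in `B`. -/
inductive BSet (B : Type u) : Type (u + 1)
  | mk (I : Type u) (elt : I → BSet B) (wt : I → B) : BSet B

namespace BSet

variable {B : Type u}

/-- The index type of a name. -/
def Idx : BSet B → Type u
  | mk I _ _ => I

/-- The elements of a name. -/
def elt : (x : BSet B) → x.Idx → BSet B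
  | mk _ e _ => e

/-- The weights of the elements of a name. -/
def wt : (x : BSet B) → x.Idx → B
  | mk _ _ w => w

variable [CompleteBooleanAlgebra B]

/-- The truth value of equality. -/
def beq : BSet B → BSet B → B
  | mk I e w, mk J f v =>
    (⨅ i : I, w i ⇨ ⨆ j : J, v j ⊓ beq (e i) (f j)) ⊓
      (⨅ j : J, v j ⇨ ⨆ i : I, w i ⊓ beq (e i) (f j))

/-- The truth value of membership. -/
def bmem (x y : BSet B) : B := ⨆ j : y.Idx, y.wt j ⊓ beq x (y.elt j)

theorem beq_def (x y : BSet B) :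
    beq x y = (⨅ i : x.Idx, x.wt i ⇨ ⨆ j : y.Idx, y.wt j ⊓ beq (x.elt i) (y.elt j)) ⊓
      (⨅ j : y.Idx, y.wt j ⇨ ⨆ i : x.Idx, x.wt i ⊓ beq (x.elt i) (y.elt j)) := by
  cases x; cases y; rfl

theorem beq_refl (x : BSet B) : beq x x = ⊤ := by
  induction x with
  | mk I e w ih =>
    rw [beq_def]
    refine top_unique (le_inf (le_iInf fun i => ?_) (le_iInf fun i => ?_))
    · rw [le_himp_iff, top_inf_eq]
      exact le_iSup_of_le i (le_inf le_rfl (le_top.trans (ih i).ge))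
    · rw [le_himp_iff, top_inf_eq]
      exact le_iSup_of_le i (le_inf le_rfl (le_top.trans (ih i).ge))

theorem beq_symm (x y : BSet B) : beq x y = beq y x := by
  induction x generalizing y with
  | mk I e w ih =>
    cases y with
    | mk J f v =>
      rw [beq_def, beq_def, inf_comm]
      show (⨅ j : J, v j ⇨ ⨆ i : I, w i ⊓ beq (e i) (f j)) ⊓
        (⨅ i : I, w i ⇨ ⨆ j : J, v j ⊓ beq (e i) (f j)) =
        (⨅ j : J, v j ⇨ ⨆ i : I, w i ⊓ beq (f j) (e i)) ⊓
        (⨅ i : I, w i ⇨ ⨆ j : J, v j ⊓ beq (f j) (e i))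
      simp only [ih]

theorem wt_inf_beq_le {x y : BSet B} (i : x.Idx) :
    x.wt i ⊓ beq x y ≤ ⨆ j : y.Idx, y.wt j ⊓ beq (x.elt i) (y.elt j) := by
  rw [beq_def]
  refine le_trans (inf_le_inf_left _ (inf_le_left.trans (iInf_le _ i))) ?_
  rw [inf_comm]
  exact himp_inf_le

theorem wt_inf_beq_le' {x y : BSet B} (j : y.Idx) :
    y.wt j ⊓ beq x y ≤ ⨆ i : x.Idx, x.wt i ⊓ beq (x.elt i) (y.elt j) := by
  rw [beq_def]
  refine le_trans (inf_le_inf_left _ (inf_le_right.trans (iInf_le _ j))) ?_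
  rw [inf_comm]
  exact himp_inf_le

theorem beq_trans (x y z : BSet B) : beq x y ⊓ beq y z ≤ beq x z := by
  induction x generalizing y z with
  | mk I e w ih =>
    rw [beq_def (mk I e w) z]
    refine le_inf (le_iInf fun i => ?_) (le_iInf fun k => ?_)
    · rw [le_himp_iff]
      have h1 : (mk I e w).wt i ⊓ beq (mk I e w) y ≤ _ := wt_inf_beq_le (x := mk I e w) i
      calc beq (mk I e w) y ⊓ beq y z ⊓ (mk I e w).wt i
          = ((mk I e w).wt i ⊓ beq (mk I e w) y) ⊓ beq y z := by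
            rw [inf_comm, inf_assoc]
        _ ≤ (⨆ j : y.Idx, y.wt j ⊓ beq (e i) (y.elt j)) ⊓ beq y z := inf_le_inf_right _ h1
        _ = ⨆ j : y.Idx, (y.wt j ⊓ beq (e i) (y.elt j)) ⊓ beq y z := iSup_inf_eq _ _
        _ ≤ _ := by
          refine iSup_le fun j => ?_
          calc (y.wt j ⊓ beq (e i) (y.elt j)) ⊓ beq y z
              = beq (e i) (y.elt j) ⊓ (y.wt j ⊓ beq y z) := by
                rw [inf_comm (y.wt j), inf_assoc]
            _ ≤ beq (e i) (y.elt j) ⊓ ⨆ k : z.Idx, z.wt k ⊓ beq (y.elt j) (z.elt k) :=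
                inf_le_inf_left _ (wt_inf_beq_le j)
            _ = ⨆ k : z.Idx, beq (e i) (y.elt j) ⊓ (z.wt k ⊓ beq (y.elt j) (z.elt k)) :=
                inf_iSup_eq _ _
            _ ≤ _ := by
              refine iSup_mono fun k => ?_
              refine le_inf (inf_le_right.trans inf_le_left) ?_
              exact le_trans (inf_le_inf_left _ inf_le_right) (ih i _ _)
    · rw [le_himp_iff]
      calc beq (mk I e w) y ⊓ beq y z ⊓ z.wt k
          = beq (mk I e w) y ⊓ (z.wt k ⊓ beq y z) := by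
            rw [inf_assoc, inf_comm (beq y z)]
        _ ≤ beq (mk I e w) y ⊓ ⨆ j : y.Idx, y.wt j ⊓ beq (y.elt j) (z.elt k) :=
            inf_le_inf_left _ (wt_inf_beq_le' k)
        _ = ⨆ j : y.Idx, beq (mk I e w) y ⊓ (y.wt j ⊓ beq (y.elt j) (z.elt k)) :=
            inf_iSup_eq _ _
        _ ≤ _ := by
          refine iSup_le fun j => ?_
          calc beq (mk I e w) y ⊓ (y.wt j ⊓ beq (y.elt j) (z.elt k))
              = (y.wt j ⊓ beq (mk I e w) y) ⊓ beq (y.elt j) (z.elt k) := by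
                rw [← inf_assoc, inf_comm (beq (mk I e w) y)]
            _ ≤ (⨆ i : I, w i ⊓ beq (e i) (y.elt j)) ⊓ beq (y.elt j) (z.elt k) :=
                inf_le_inf_right _ (wt_inf_beq_le' (x := mk I e w) j)
            _ = ⨆ i : I, (w i ⊓ beq (e i) (y.elt j)) ⊓ beq (y.elt j) (z.elt k) :=
                iSup_inf_eq _ _
            _ ≤ _ := by
              refine iSup_mono fun i => ?_
              rw [inf_assoc]
              exact inf_le_inf_left _ (ih i _ _)

theorem beq_trans' {b : B} {x y z : BSet B} (h1 : b ≤ beq x y) (h2 : b ≤ beq y z) :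
    b ≤ beq x z := (le_inf h1 h2).trans (beq_trans x y z)

theorem wt_le_bmem (y : BSet B) (j : y.Idx) : y.wt j ≤ bmem (y.elt j) y :=
  le_iSup_of_le j (by rw [beq_refl, inf_top_eq])

theorem bmem_congr_left (x x' y : BSet B) : beq x x' ⊓ bmem x y ≤ bmem x' y := by
  unfold bmem
  rw [inf_iSup_eq]
  refine iSup_mono fun j => ?_
  refine le_inf (inf_le_right.trans inf_le_left) ?_
  refine le_trans (inf_le_inf_left _ inf_le_right) ?_
  rw [beq_symm x x']
  exact beq_trans _ _ _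

theorem bmem_congr_right (x y y' : BSet B) : beq y y' ⊓ bmem x y ≤ bmem x y' := by
  conv_lhs => unfold bmem
  rw [inf_iSup_eq]
  refine iSup_le fun j => ?_
  calc beq y y' ⊓ (y.wt j ⊓ beq x (y.elt j))
      = beq x (y.elt j) ⊓ (y.wt j ⊓ beq y y') := by
        rw [inf_comm, inf_comm (y.wt j), inf_assoc]
    _ ≤ beq x (y.elt j) ⊓ ⨆ k : y'.Idx, y'.wt k ⊓ beq (y.elt j) (y'.elt k) :=
        inf_le_inf_left _ (wt_inf_beq_le j)
    _ = ⨆ k : y'.Idx, beq x (y.elt j) ⊓ (y'.wt k ⊓ beq (y.elt j) (y'.elt k)) := inf_iSup_eq _ _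
    _ ≤ _ := by
      refine iSup_mono fun k => ?_
      refine le_inf (inf_le_right.trans inf_le_left) ?_
      exact le_trans (inf_le_inf_left _ inf_le_right) (beq_trans _ _ _)

/-- A `B`-valued predicate on names that respects equality. -/
def Ext (φ : BSet B → B) : Prop := ∀ x y, beq x y ⊓ φ x ≤ φ y

theorem ext_bmem_left (y : BSet B) : Ext (fun x => bmem x y) := fun x x' => bmem_congr_left x x' y

theorem ext_bmem_right (x : BSet B) : Ext (fun y => bmem x y) := fun y y' => bmem_congr_right x y y'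

theorem ext_beq_left (y : BSet B) : Ext (fun x => beq x y) := by
  intro x x'
  show beq x x' ⊓ beq x y ≤ beq x' y
  rw [beq_symm x x']
  exact beq_trans _ _ _

theorem ext_beq_right (x : BSet B) : Ext (fun y => beq x y) := by
  intro y y'
  show beq y y' ⊓ beq x y ≤ beq x y'
  rw [inf_comm]
  exact beq_trans _ _ _

theorem Ext.inf {φ ψ : BSet B → B} (h : Ext φ) (h' : Ext ψ) : Ext (fun x => φ x ⊓ ψ x) := by
  intro x y
  exact le_inf (le_trans (inf_le_inf_left _ inf_le_left) (h x y))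
    (le_trans (inf_le_inf_left _ inf_le_right) (h' x y))

theorem Ext.compl {φ : BSet B → B} (h : Ext φ) : Ext (fun x => (φ x)ᶜ) := by
  intro x y
  show beq x y ⊓ (φ x)ᶜ ≤ (φ y)ᶜ
  rw [le_compl_iff_disjoint_right, disjoint_iff_inf_le]
  calc beq x y ⊓ (φ x)ᶜ ⊓ φ y = (φ x)ᶜ ⊓ (beq y x ⊓ φ y) := by
        rw [beq_symm x y, inf_comm (beq y x), inf_assoc]
    _ ≤ (φ x)ᶜ ⊓ φ x := inf_le_inf_left _ (h y x)
    _ ≤ ⊥ := by simp

theorem Ext.sup {φ ψ : BSet B → B} (h : Ext φ) (h' : Ext ψ) : Ext (fun x => φ x ⊔ ψ x) := by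
  intro x y
  show beq x y ⊓ (φ x ⊔ ψ x) ≤ φ y ⊔ ψ y
  rw [inf_sup_left]
  exact sup_le_sup (h x y) (h' x y)

theorem Ext.iSup {ι : Sort*} {φ : ι → BSet B → B} (h : ∀ i, Ext (φ i)) :
    Ext (fun x => ⨆ i, φ i x) := by
  intro x y
  show beq x y ⊓ (⨆ i, φ i x) ≤ ⨆ i, φ i y
  rw [inf_iSup_eq]
  exact iSup_mono fun i => h i x y

theorem Ext.iInf {ι : Sort*} {φ : ι → BSet B → B} (h : ∀ i, Ext (φ i)) :
    Ext (fun x => ⨅ i, φ i x) := by
  intro x y
  show beq x y ⊓ (⨅ i, φ i x) ≤ ⨅ i, φ i y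
  exact le_iInf fun i => le_trans (inf_le_inf_left _ (iInf_le _ i)) (h i x y)

theorem Ext.const (b : B) : Ext (fun _ : BSet B => b) := fun _ _ => inf_le_right

/-- Bounded existential quantification. -/
theorem iSup_bmem {φ : BSet B → B} (h : Ext φ) (x : BSet B) :
    (⨆ y, bmem y x ⊓ φ y) = ⨆ i : x.Idx, x.wt i ⊓ φ (x.elt i) := by
  refine le_antisymm (iSup_le fun y => ?_) (iSup_le fun i => ?_)
  · unfold bmem
    rw [iSup_inf_eq]
    refine iSup_mono fun i => ?_
    rw [inf_assoc]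
    exact inf_le_inf_left _ (h _ _)
  · exact le_iSup_of_le (x.elt i) (inf_le_inf_right _ (wt_le_bmem x i))

/-- Bounded universal quantification. -/
theorem iInf_bmem {φ : BSet B → B} (h : Ext φ) (x : BSet B) :
    (⨅ y, bmem y x ⇨ φ y) = ⨅ i : x.Idx, x.wt i ⇨ φ (x.elt i) := by
  refine le_antisymm (le_iInf fun i => ?_) (le_iInf fun y => ?_)
  · exact (iInf_le _ (x.elt i)).trans (himp_le_himp_right (wt_le_bmem x i))
  · rw [le_himp_iff]
    unfold bmem
    rw [inf_iSup_eq]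
    refine iSup_le fun i => ?_
    refine le_trans (inf_le_inf_right _ (iInf_le _ i)) ?_
    rw [← inf_assoc]
    refine le_trans (inf_le_inf_right _ himp_inf_le) ?_
    rw [inf_comm, beq_symm]
    exact h _ _

/-- Extensionality. -/
theorem beq_eq (x y : BSet B) :
    beq x y = (⨅ i : x.Idx, x.wt i ⇨ bmem (x.elt i) y) ⊓
      (⨅ j : y.Idx, y.wt j ⇨ bmem (y.elt j) x) := by
  rw [beq_def]
  unfold bmem
  simp only [beq_symm (x.elt _) (y.elt _)]

theorem beq_eq' (x y : BSet B) :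
    beq x y = (⨅ z, bmem z x ⇨ bmem z y) ⊓ (⨅ z, bmem z y ⇨ bmem z x) := by
  rw [beq_eq, iInf_bmem (ext_bmem_left y), iInf_bmem (ext_bmem_left x)]

/-- The subset relation. -/
def bsub (x y : BSet B) : B := ⨅ i : x.Idx, x.wt i ⇨ bmem (x.elt i) y

theorem bsub_eq (x y : BSet B) : bsub x y = ⨅ z, bmem z x ⇨ bmem z y :=
  (iInf_bmem (ext_bmem_left y) x).symm

/-- Mixing: for pairwise disjoint `a i` there is a name that is `x i` with truth value at
least `a i`. -/
theorem mixing {ι : Type u} (a : ι → B) (ha : ∀ i j, i ≠ j → a i ⊓ a j = ⊥) (x : ι → BSet B) :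
    ∃ y : BSet B, ∀ i, a i ≤ beq y (x i) := by
  refine ⟨mk (Σ i : ι, (x i).Idx) (fun p => (x p.1).elt p.2)
    (fun p => a p.1 ⊓ (x p.1).wt p.2), fun i => ?_⟩
  rw [beq_def]
  refine le_inf (le_iInf fun p => ?_) (le_iInf fun j => ?_)
  · rw [le_himp_iff]
    obtain ⟨k, l⟩ := p
    show a i ⊓ (a k ⊓ (x k).wt l) ≤ ⨆ j : (x i).Idx, (x i).wt j ⊓ beq ((x k).elt l) ((x i).elt j)
    by_cases hk : i = k
    · subst hk
      refine le_iSup_of_le l ?_
      rw [beq_refl, inf_top_eq]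
      exact inf_le_right.trans inf_le_right
    · rw [← inf_assoc, ha i k hk, bot_inf_eq]
      exact bot_le
  · rw [le_himp_iff]
    refine le_iSup_of_le (⟨i, j⟩ : Σ i : ι, (x i).Idx) ?_
    show a i ⊓ (x i).wt j ≤ (a i ⊓ (x i).wt j) ⊓ beq ((x i).elt j) ((x i).elt j)
    rw [beq_refl, inf_top_eq]

/-- Fullness (the maximum principle). -/
theorem exists_eq_iSup {φ : BSet B → B} (h : Ext φ) : ∃ x, φ x = ⨆ y, φ y := by
  classical
  let R : Type u := {b : B // ∃ z, φ z = b}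
  choose z hz using fun r : R => r.2
  let lt : R → R → Prop := WellOrderingRel
  have wf : WellFounded lt := IsWellFounded.wf
  let a : R → B := fun r => r.1 ⊓ (⨆ s : {s : R // lt s r}, (s.1.1 : B))ᶜ
  have ha : ∀ i j, i ≠ j → a i ⊓ a j = ⊥ := by
    have key : ∀ i j : R, lt i j → a i ⊓ a j = ⊥ := by
      intro i j hij
      have h1 : i.1 ≤ ⨆ s : {s : R // lt s j}, (s.1.1 : B) :=
        le_iSup (fun s : {s : R // lt s j} => (s.1.1 : B)) ⟨i, hij⟩
      rw [← le_bot_iff]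
      calc a i ⊓ a j ≤ i.1 ⊓ (⨆ s : {s : R // lt s j}, (s.1.1 : B))ᶜ :=
            inf_le_inf inf_le_left inf_le_right
        _ ≤ (⨆ s : {s : R // lt s j}, (s.1.1 : B)) ⊓
            (⨆ s : {s : R // lt s j}, (s.1.1 : B))ᶜ := inf_le_inf_right _ h1
        _ ≤ ⊥ := by simp
    intro i j hij
    rcases trichotomous_of lt i j with h | h | h
    · exact key i j h
    · exact absurd h hij
    · rw [inf_comm]; exact key j i h
  have hsup : ∀ r : R, (r.1 : B) ≤ ⨆ s, a s := by
    intro r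
    induction r using wf.induction with
    | _ r ih =>
      have h1 : (⨆ s : {s : R // lt s r}, (s.1.1 : B)) ≤ ⨆ s, a s :=
        iSup_le fun s => ih s.1 s.2
      have h2 : (r.1 : B) ≤ a r ⊔ (⨆ s : {s : R // lt s r}, (s.1.1 : B)) := by
        show (r.1 : B) ≤ (r.1 ⊓ (⨆ s : {s : R // lt s r}, (s.1.1 : B))ᶜ) ⊔
          (⨆ s : {s : R // lt s r}, (s.1.1 : B))
        rw [sup_inf_right, compl_sup_eq_top, inf_top_eq]
        exact le_sup_left
      exact h2.trans (sup_le (le_iSup a r) h1)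
  obtain ⟨y, hy⟩ := mixing a ha z
  refine ⟨y, le_antisymm (le_iSup φ y) (iSup_le fun w => ?_)⟩
  refine (hsup ⟨φ w, w, rfl⟩).trans (iSup_le fun s => ?_)
  have h1 : a s ≤ φ (z s) := by
    rw [hz s]; exact inf_le_left
  refine le_trans (le_inf ?_ h1) (h (z s) y)
  rw [beq_symm]
  exact hy s

end BSet

end Pool.Agent.BVM
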