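import Pool.Agent.Lib_helper75.BVM.Flip

/-!
The automorphism given by a flip algebra is not trivial.
-/

set_option autoImplicit false

universe u v

namespace Pool.Agent.BVM

open BSet

variable {B : Type u} [CompleteBooleanAlgebra B] {W : Type u} [LinearOrder W] [WellFoundedLT W]

theorem CCC.almostSub_support (h : CCC B) (t : B) (b c : W → B)
    (hV : ∀ V : UF B, t ∈ V → AlmostSub (Emem V) (cls V (subN b)) (cls V (subN c))) :
    {w : W | t ⊓ (b w ⊓ (c w)ᶜ) ≠ ⊥}.Countable := by
  have hE : Ext fun z : BSet B => (bmem z (subN c))ᶜ := (ext_bmem_left (subN c)).compl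
  have hd : ∀ V : UF B, IsDiff (Emem V) (cls V (sep (subN b) fun z => (bmem z (subN c))ᶜ))
      (cls V (subN b)) (cls V (subN c)) := by
    intro V z
    obtain ⟨z, rfl⟩ := cls_surj V z
    rw [Emem_cls, bmem_sep (subN b) hE, V.inf_mem_iff, V.compl_mem_iff]
    exact Iff.rfl
  have h1 := h.countable_support (W := W) t (sep (subN b) fun z => (bmem z (subN c))ᶜ) (by
    intro V ht
    obtain ⟨d, hd1, hd2⟩ := hV V ht
    have : d = cls V (sep (subN b) fun z => (bmem z (subN c))ᶜ) :=
      mod_ext _ _ fun z => (hd1 z).trans (hd V z).symm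
    subst this
    exact hd2)
  simpa only [bmem_sep (subN b) hE, vN_mem_subN] using h1

/-- The truth values of the preimage of `subN a` under the relation `e`. -/
noncomputable def preV (e : BSet B) (a : W → B) (w : W) : B :=
  ⨆ v : W, bmem (opair (vN B w) (vN B v)) e ⊓ a v

theorem ext_opair_left (e y : BSet B) : Ext fun x => bmem (opair x y) e :=
  HasTV.ext_of (P := fun V x => Rel (Emem V) (cls V e) x (cls V y)) (fun _ _ => rel_iff)

theorem ext_opair_right (e x : BSet B) : Ext fun y => bmem (opair x y) e :=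
  HasTV.ext_of (P := fun V y => Rel (Emem V) (cls V e) (cls V x) y) (fun _ _ => rel_iff)

theorem iSup_rel_subN (e x : BSet B) (a : W → B) :
    (⨆ y, bmem (opair x y) e ⊓ bmem y (subN a)) = ⨆ v : W, bmem (opair x (vN B v)) e ⊓ a v := by
  refine le_antisymm (iSup_le fun y => ?_) (iSup_le fun v => ?_)
  · rw [bmem_subN, inf_iSup_eq]
    refine iSup_mono fun v => le_inf ?_ (inf_le_right.trans inf_le_left)
    refine le_trans (le_inf (inf_le_right.trans inf_le_right) inf_le_left) ?_
    exact ext_opair_right e x y (vN B v)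
  · refine le_iSup_of_le (vN B v) ?_
    rw [vN_mem_subN]

theorem bmem_subN_preV (e x : BSet B) (a : W → B) :
    bmem x (subN (preV e a)) =
      bmem x (oT B W) ⊓ ⨆ y, bmem (opair x y) e ⊓ bmem y (subN a) := by
  rw [iSup_rel_subN, bmem_subN, bmem_oT, iSup_inf_eq]
  refine iSup_congr fun w => ?_
  unfold preV
  rw [iSup_inf_eq, inf_iSup_eq]
  refine iSup_congr fun v => ?_
  have h1 := ext_opair_left e (vN B v) x (vN B w)
  have h2 := ext_opair_left e (vN B v) (vN B w) x
  rw [beq_symm (vN B w)] at h2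
  refine le_antisymm (le_inf inf_le_right (le_inf ?_ (inf_le_left.trans inf_le_right)))
    (le_inf (le_inf ?_ (inf_le_right.trans inf_le_right)) inf_le_left)
  · exact le_trans (le_inf inf_le_right (inf_le_left.trans inf_le_left)) h2
  · exact le_trans (le_inf inf_le_left (inf_le_right.trans inf_le_left)) h1

theorem isPreimage_preV (V : UF B) (e : BSet B) (a : W → B) :
    IsPreimage (Emem V) (cls V (subN (preV e a))) (cls V e) (cls V (oT B W))
      (cls V (subN a)) := by
  intro x
  obtain ⟨x, rfl⟩ := cls_surj V x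
  have hval : ∀ y, ∀ V : UF B, (Rel (Emem V) (cls V e) (cls V x) (cls V y) ∧
      Emem V (cls V y) (cls V (subN a))) ↔ bmem (opair x y) e ⊓ bmem y (subN a) ∈ V := by
    intro y V
    rw [V.inf_mem_iff, rel_iff]
    exact Iff.rfl
  have hE : Ext fun y => bmem (opair x y) e ⊓ bmem y (subN a) :=
    HasTV.ext_of (P := fun V y => Rel (Emem V) (cls V e) (cls V x) y ∧
      Emem V y (cls V (subN a))) hval
  rw [Emem_cls, bmem_subN_preV, V.inf_mem_iff, iSup_mem_iff hE]
  refine and_congr Iff.rfl ?_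
  constructor
  · rintro ⟨y, hy⟩
    exact ⟨cls V y, (hval y V).mpr hy⟩
  · rintro ⟨y, hy⟩
    obtain ⟨y, rfl⟩ := cls_surj V y
    exact ⟨y, (hval y V).mp hy⟩

namespace FlipAlgebra

variable (F : FlipAlgebra B W)

theorem rel_piN (V : UF B) (a : W → B) :
    Rel (Emem V) (cls V F.piN) (cls V (subN a)) (cls V (subN (F.act a))) := by
  rw [rel_iff, F.bmem_piN]
  refine V.mono V.top_mem ?_
  refine le_iSup_of_le a ?_
  rw [beq_refl, beq_refl, inf_top_eq]

theorem not_isTrivial [Uncountable W] (ι : W → ℕ → Bool) (hι : Function.Injective ι)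
    (U : UF B) : ¬ IsTrivial (Emem U) (cls U (oT B W)) (cls U F.piN) := by
  classical
  rintro ⟨e, hfun, he⟩
  obtain ⟨e, rfl⟩ := cls_surj U e
  obtain ⟨t, ht⟩ : HasTV fun U : UF B => ∀ a b : Mod U, Rel (Emem U) (cls U F.piN) a b →
      ∀ c, IsPreimage (Emem U) c (cls U e) (cls U (oT B W)) a →
        AlmostSub (Emem U) b c ∧ AlmostSub (Emem U) c b :=
    HasTV.all fun a => HasTV.all fun b => (hasTV_rel F.piN a b).imp (HasTV.all fun c =>
      (hasTV_isPreimage c e (oT B W) a).imp ((hasTV_almostSub b c).and (hasTV_almostSub c b)))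
  have htU : t ∈ U := (ht U).mp he
  have key : ∀ (a : W → B), {w : W | ¬ (t ⊓ F.act a w = t ⊓ preV e a w)}.Countable := by
    intro a
    have h1 := F.ccc.almostSub_support t (F.act a) (preV e a) (fun V hV =>
      ((ht V).mpr hV _ _ (F.rel_piN V a) _ (isPreimage_preV V e a)).1)
    have h2 := F.ccc.almostSub_support t (preV e a) (F.act a) (fun V hV =>
      ((ht V).mpr hV _ _ (F.rel_piN V a) _ (isPreimage_preV V e a)).2)
    refine Set.Countable.mono ?_ (h1.union h2)
    intro w hw
    by_contra hcon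
    simp only [Set.mem_union, Set.mem_ofPred_eq, not_or, not_not, ne_eq] at hcon
    apply hw
    rw [← inf_assoc, ← inf_assoc, ← sdiff_eq, ← sdiff_eq, sdiff_eq_bot_iff,
      sdiff_eq_bot_iff] at hcon
    exact le_antisymm (le_inf inf_le_left hcon.1) (le_inf inf_le_left hcon.2)
  -- the constant sets
  let χ : ℕ → Bool → W → B := fun n β w => if ι w n = β then ⊤ else ⊥
  have hχ : ∀ n β, F.act (χ n β) = χ n β := by
    intro n β
    funext w
    show F.flip w (if ι w n = β then ⊤ else ⊥) = if ι w n = β then ⊤ else ⊥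
    split_ifs
    · exact F.flip_top w
    · exact F.flip_bot w
  have htop : F.act (fun _ => ⊤) = fun _ : W => (⊤ : B) := by
    funext w
    exact F.flip_top w
  have hcount : ((⋃ p : ℕ × Bool, {w : W | ¬ (t ⊓ F.act (χ p.1 p.2) w =
      t ⊓ preV e (χ p.1 p.2) w)}) ∪ {w : W | ¬ (t ⊓ F.act (fun _ => ⊤) w =
      t ⊓ preV e (fun _ => ⊤) w)} ∪ {w : W | ¬ (t ⊓ F.act F.bit w =
      t ⊓ preV e F.bit w)}).Countable :=
    ((Set.countable_iUnion fun p => key _).union (key _)).union (key _)
  obtain ⟨w, hw⟩ : ∃ w : W, w ∉ ((⋃ p : ℕ × Bool, {w : W | ¬ (t ⊓ F.act (χ p.1 p.2) w =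
      t ⊓ preV e (χ p.1 p.2) w)}) ∪ {w : W | ¬ (t ⊓ F.act (fun _ => ⊤) w =
      t ⊓ preV e (fun _ => ⊤) w)} ∪ {w : W | ¬ (t ⊓ F.act F.bit w =
      t ⊓ preV e F.bit w)}) := by
    by_contra hcon
    push Not at hcon
    have := Set.countable_univ_iff.mp (Set.Countable.mono (fun w _ => hcon w) hcount)
    exact not_countable this
  simp only [Set.mem_union, Set.mem_iUnion, Set.mem_ofPred_eq, not_or, not_not, not_exists]
    at hw
  obtain ⟨⟨hw1, hw2⟩, hw3⟩ := hw
  -- the relation is the identity at `w`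
  have h1 : ∀ v : W, v ≠ w → t ⊓ bmem (opair (vN B w) (vN B v)) e = ⊥ := by
    intro v hv
    obtain ⟨n, hn⟩ : ∃ n, ι v n ≠ ι w n := by
      by_contra hcon
      push Not at hcon
      exact hv (hι (funext hcon))
    have h2 := hw1 (n, ι v n)
    rw [hχ] at h2
    have h3 : χ n (ι v n) w = ⊥ := if_neg (Ne.symm hn)
    have h4 : χ n (ι v n) v = ⊤ := if_pos rfl
    rw [h3, inf_bot_eq] at h2
    rw [← le_bot_iff, h2]
    refine inf_le_inf_left _ ?_
    refine le_iSup_of_le v ?_
    rw [h4, inf_top_eq]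
  have h2 : t ≤ bmem (opair (vN B w) (vN B w)) e := by
    have h3 : t ≤ preV e (fun _ : W => (⊤ : B)) w := by
      have h4 := hw2
      rw [htop, inf_top_eq] at h4
      rw [h4]
      exact inf_le_right
    calc t ≤ t ⊓ preV e (fun _ : W => (⊤ : B)) w := le_inf le_rfl h3
      _ = ⨆ v : W, t ⊓ (bmem (opair (vN B w) (vN B v)) e ⊓ ⊤) := inf_iSup_eq _ _
      _ ≤ _ := by
        refine iSup_le fun v => ?_
        rw [inf_top_eq]
        by_cases hv : v = w
        · subst hv; exact inf_le_right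
        · rw [h1 v hv]; exact bot_le
  have h3 : ∀ a : W → B, t ⊓ preV e a w = t ⊓ a w := by
    intro a
    refine le_antisymm ?_ (le_inf inf_le_left (le_iSup_of_le w
      (le_inf (inf_le_left.trans h2) inf_le_right)))
    unfold preV
    rw [inf_iSup_eq]
    refine iSup_le fun v => ?_
    by_cases hv : v = w
    · subst hv
      exact inf_le_inf_left _ inf_le_right
    · rw [← inf_assoc, h1 v hv, bot_inf_eq]
      exact bot_le
  rw [h3] at hw3
  have h4 : F.act F.bit w = (F.bit w)ᶜ := F.flip_bit w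
  rw [h4] at hw3
  have h5 : t ≤ ⊥ := by
    calc t = (t ⊓ F.bit w) ⊔ (t ⊓ (F.bit w)ᶜ) := by
          rw [← inf_sup_left, sup_compl_eq_top, inf_top_eq]
      _ = t ⊓ F.bit w := by rw [hw3, sup_idem]
      _ = (t ⊓ F.bit w) ⊓ (t ⊓ (F.bit w)ᶜ) := by rw [hw3, inf_idem]
      _ ≤ F.bit w ⊓ (F.bit w)ᶜ := inf_le_inf inf_le_right inf_le_right
      _ = ⊥ := inf_compl_eq_bot
  exact U.bot_notMem (U.mono htU h5)

end FlipAlgebra

end Pool.Agent.BVM
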