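import Pool.Agent.Lib_helper75.BVM.ZFC

/-!
Names for von Neumann ordinals, the axiom of infinity, and the fact that the quotient model is a
model of ZFC.
-/

set_option autoImplicit false

universe u v

namespace Pool.Agent.BVM

open BSet

variable {B : Type u} [CompleteBooleanAlgebra B]

namespace BSet

section

variable {W : Type u} [LinearOrder W] [WellFoundedLT W]

/-- The canonical name for the von Neumann ordinal that is the type of the initial segment
below `w`. -/
noncomputable def vN (B : Type u) [CompleteBooleanAlgebra B] {W : Type u} [LinearOrder W]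
    [WellFoundedLT W] (w : W) : BSet B :=
  (wellFounded_lt (α := W)).fix
    (fun w ih => mk {v : W // v < w} (fun v => ih v.1 v.2) (fun _ => ⊤)) w

theorem vN_def (w : W) : vN B w = mk {v : W // v < w} (fun v => vN B v.1) (fun _ => ⊤) :=
  WellFounded.fix_eq _ _ _

/-- The name of the ordinal that is the order type of `W`. -/
noncomputable def oT (B : Type u) [CompleteBooleanAlgebra B] (W : Type u) [LinearOrder W] [WellFoundedLT W] :
    BSet B := mk W (fun w => vN B w) (fun _ => ⊤)

theorem bmem_vN (x : BSet B) (w : W) : bmem x (vN B w) = ⨆ v : {v : W // v < w}, beq x (vN B v.1) := by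
  rw [vN_def]
  show (⨆ v : {v : W // v < w}, ⊤ ⊓ beq x (vN B v.1)) = _
  simp only [top_inf_eq]

theorem bmem_oT (x : BSet B) : bmem x (oT B W) = ⨆ w : W, beq x (vN B w) := by
  show (⨆ w : W, ⊤ ⊓ beq x (vN B w)) = _
  simp only [top_inf_eq]

theorem vN_mem_oT (w : W) : bmem (vN B w) (oT B W) = ⊤ := by
  rw [bmem_oT]
  exact top_unique (le_iSup_of_le w (beq_refl _).ge)

theorem vN_mem_of_lt {v w : W} (h : v < w) : bmem (vN B v) (vN B w) = ⊤ := by
  rw [bmem_vN]
  exact top_unique (le_iSup_of_le (⟨v, h⟩ : {v : W // v < w}) (beq_refl _).ge)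

theorem vN_beq_of_lt {v w : W} (h : v < w) : beq (vN B v) (vN B w) = ⊥ := by
  rw [← le_bot_iff]
  calc beq (vN B v) (vN B w) = beq (vN B w) (vN B v) ⊓ bmem (vN B v) (vN B w) := by
        rw [vN_mem_of_lt h, inf_top_eq, beq_symm]
    _ ≤ bmem (vN B v) (vN B v) := bmem_congr_right _ _ _
    _ ≤ ⊥ := (bmem_self _).le

theorem vN_beq_of_ne {v w : W} (h : v ≠ w) : beq (vN B v) (vN B w) = ⊥ := by
  rcases lt_or_gt_of_ne h with h | h
  · exact vN_beq_of_lt h
  · rw [beq_symm]; exact vN_beq_of_lt h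

theorem vN_mem_of_not_lt {v w : W} (h : ¬ v < w) : bmem (vN B v) (vN B w) = ⊥ := by
  rw [bmem_vN, ← le_bot_iff]
  refine iSup_le fun z => ?_
  rw [vN_beq_of_ne]
  exact (lt_of_lt_of_le z.2 (not_lt.mp h)).ne'

end

/-- The name of the set of natural numbers. -/
noncomputable def omega (B : Type u) [CompleteBooleanAlgebra B] : BSet B := oT B (ULift.{u} ℕ)

theorem bmem_succ (n : ℕ) (z : BSet B) :
    bmem z (vN B (ULift.up.{u} (n + 1))) =
      bmem z (vN B (ULift.up.{u} n)) ⊔ beq z (vN B (ULift.up.{u} n)) := by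
  rw [bmem_vN, bmem_vN]
  refine le_antisymm (iSup_le fun m => ?_) (sup_le (iSup_le fun m => ?_) ?_)
  · rcases Nat.lt_succ_iff_lt_or_eq.mp (show m.1.down < n + 1 from m.2) with h | h
    · exact le_sup_of_le_left (le_iSup (fun v : {v : ULift.{u} ℕ // v < ULift.up.{u} n} =>
        beq z (vN B v.1)) ⟨m.1, h⟩)
    · refine le_sup_of_le_right ?_
      have : m.1 = ULift.up.{u} n := by
        apply ULift.down_injective
        exact h
      rw [this]
  · exact le_iSup (fun v : {v : ULift.{u} ℕ // v < ULift.up.{u} (n + 1)} => beq z (vN B v.1))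
      ⟨m.1, lt_trans m.2 (show n < n + 1 from Nat.lt_succ_self n)⟩
  · exact le_iSup (fun v : {v : ULift.{u} ℕ // v < ULift.up.{u} (n + 1)} => beq z (vN B v.1))
      ⟨ULift.up.{u} n, (show n < n + 1 from Nat.lt_succ_self n)⟩

theorem bmem_zero (z : BSet B) : bmem z (vN B (ULift.up.{u} 0)) = ⊥ := by
  rw [bmem_vN, ← le_bot_iff]
  refine iSup_le fun m => absurd (show m.1.down < 0 from m.2) (Nat.not_lt_zero _)

theorem bmem_omega (x : BSet B) : bmem x (omega B) = ⨆ n : ℕ, beq x (vN B (ULift.up.{u} n)) := by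
  unfold omega
  rw [bmem_oT]
  refine le_antisymm (iSup_le fun w => ?_) (iSup_le fun n => ?_)
  · exact le_iSup (fun n : ℕ => beq x (vN B (ULift.up.{u} n))) w.down
  · exact le_iSup (fun w : ULift.{u} ℕ => beq x (vN B w)) (ULift.up n)

/-- Bounded quantification over the natural numbers. -/
theorem iInf_omega {φ : BSet B → B} (h : Ext φ) :
    (⨅ x, bmem x (omega B) ⇨ φ x) = ⨅ n : ℕ, φ (vN B (ULift.up.{u} n)) := by
  rw [iInf_bmem h]
  show (⨅ w : ULift.{u} ℕ, ⊤ ⇨ φ (vN B w)) = _
  simp only [top_himp]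
  refine le_antisymm (le_iInf fun n => ?_) (le_iInf fun w => ?_)
  · exact iInf_le (fun w : ULift.{u} ℕ => φ (vN B w)) (ULift.up n)
  · exact iInf_le (fun n : ℕ => φ (vN B (ULift.up.{u} n))) w.down

end BSet

variable {U : UF B}

theorem mod_infinity : ∃ w, (∃ e, Emem U e w ∧ ∀ z, ¬ Emem U z e) ∧
    ∀ x, Emem U x w → ∃ s, Emem U s w ∧ ∀ z, Emem U z s ↔ (Emem U z x ∨ z = x) := by
  refine ⟨cls U (omega B), ⟨cls U (vN B (ULift.up.{u} 0)), ?_, ?_⟩, ?_⟩
  · rw [Emem_cls]
    unfold omega
    rw [vN_mem_oT]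
    exact U.top_mem
  · intro z
    obtain ⟨z, rfl⟩ := cls_surj U z
    rw [Emem_cls, bmem_zero]
    exact U.bot_notMem
  · let χ : BSet B → B := fun x => ⨆ s, bmem s (omega B) ⊓ ⨅ z,
      ((bmem z s ⇨ (bmem z x ⊔ beq z x)) ⊓ ((bmem z x ⊔ beq z x) ⇨ bmem z s))
    have hχ : Ext χ := Ext.iSup fun s => (Ext.const _).inf (Ext.iInf fun z =>
      ((Ext.const _).himp ((ext_bmem_right z).sup (ext_beq_right z))).inf
      (((ext_bmem_right z).sup (ext_beq_right z)).himp (Ext.const _)))
    have hχn : ∀ n : ℕ, χ (vN B (ULift.up.{u} n)) = ⊤ := by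
      intro n
      refine top_unique (le_iSup_of_le (vN B (ULift.up.{u} (n + 1))) (le_inf ?_ ?_))
      · unfold omega
        rw [vN_mem_oT]
      · refine le_iInf fun z => ?_
        rw [bmem_succ]
        simp
    intro x hx
    obtain ⟨x, rfl⟩ := cls_surj U x
    rw [Emem_cls] at hx
    have h1 : (⨅ x, bmem x (omega B) ⇨ χ x) = ⊤ := by
      rw [iInf_omega hχ]
      simp [hχn]
    have h2 : bmem x (omega B) ≤ χ x := by
      rw [← himp_eq_top_iff]
      exact top_unique (h1 ▸ iInf_le _ x)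
    have h3 : χ x ∈ U := U.mono hx h2
    have hext : ∀ x : BSet B, Ext (fun s => bmem s (omega B) ⊓ ⨅ z,
      ((bmem z s ⇨ (bmem z x ⊔ beq z x)) ⊓ ((bmem z x ⊔ beq z x) ⇨ bmem z s))) :=
      fun x => (ext_bmem_left _).inf (Ext.iInf fun z =>
        ((ext_bmem_right z).himp (Ext.const _)).inf ((Ext.const _).himp (ext_bmem_right z)))
    obtain ⟨s, hs⟩ := (iSup_mem_iff (hext x)).mp h3
    obtain ⟨hs1, hs2⟩ := U.inf_mem_iff.mp hs
    refine ⟨cls U s, hs1, fun z => ?_⟩
    obtain ⟨z, rfl⟩ := cls_surj U z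
    have h4 := U.mono hs2 (iInf_le _ z)
    rw [U.inf_mem_iff, U.himp_mem_iff, U.himp_mem_iff, U.sup_mem_iff] at h4
    rw [Emem_cls, Emem_cls, cls_eq]
    exact ⟨h4.1, h4.2⟩

/-- The quotient of the universe of names by an ultrafilter is a model of ZFC. -/
theorem modelZFC (U : UF B) : ModelZFC (Emem U) where
  extensionality := mod_ext
  foundation := mod_foundation
  pairing := mod_pairing
  union := mod_union
  powerset := mod_powerset
  infinity := mod_infinity
  separation := mod_separation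
  replacement := mod_replacement
  choice := mod_choice

end Pool.Agent.BVM
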