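import Pool.Agent.Lib_helper75.BVM.Flip

/-!
Tools for the quotient models: bounded quantifiers, names for definable families of subsets,
countable sets, sequences.
-/

set_option autoImplicit false

universe u v

namespace Pool.Agent.BVM

open BSet

variable {B : Type u} [CompleteBooleanAlgebra B]

section

variable {W : Type u} [LinearOrder W] [WellFoundedLT W] {U : UF B}

/-- Quantification over the elements of an ordinal of the ground model. -/
theorem forall_mem_oT {P : ∀ V : UF B, Mod V → Prop}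
    (hP : ∀ x : BSet B, HasTV fun V => P V (cls V x)) {b : B} (hb : b ∈ U)
    (h : ∀ (w : W) (V : UF B), b ∈ V → P V (cls V (vN B w))) (x : Mod U)
    (hx : Emem U x (cls U (oT B W))) : P U x := by
  obtain ⟨x, rfl⟩ := cls_surj U x
  choose χ hχ using hP
  have hE : Ext χ := HasTV.ext_of hχ
  refine (hχ x U).mpr (U.mono (U.inf_mem hb hx) ?_)
  rw [bmem_oT, inf_iSup_eq]
  refine iSup_le fun w => ?_
  have h1 : b ≤ χ (vN B w) := UF.le_of_forall fun V hV => (hχ _ V).mp (h w V hV)
  refine le_trans (le_inf ?_ (inf_le_left.trans h1)) (hE (vN B w) x)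
  rw [beq_symm]
  exact inf_le_right

theorem forall_mem_omega {P : ∀ V : UF B, Mod V → Prop}
    (hP : ∀ x : BSet B, HasTV fun V => P V (cls V x)) {b : B} (hb : b ∈ U)
    (h : ∀ (n : ℕ) (V : UF B), b ∈ V → P V (cls V (vN B (ULift.up.{u} n)))) (x : Mod U)
    (hx : Emem U x (cls U (omega B))) : P U x :=
  forall_mem_oT (W := ULift.{u} ℕ) hP hb (fun w V hV => h w.down V hV) x hx

end

/-! ### Families of subsets -/

section

variable {W : Type u} [LinearOrder W] [WellFoundedLT W]

/-- The name of the family of the subsets of `W` with the property `F`. -/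
noncomputable def famN (F : (W → B) → B) : BSet B := mk (W → B) (fun a => subN a) F

/-- Extensionality for properties of the truth values of a subset. -/
def FExt (F : (W → B) → B) : Prop :=
  ∀ (b : B) (a a' : W → B), (∀ w, b ⊓ a w ≤ a' w) → (∀ w, b ⊓ a' w ≤ a w) → b ⊓ F a ≤ F a'

theorem bmem_famN {F : (W → B) → B} (hF : FExt F) (u : BSet B) :
    bmem u (famN F) = bsub u (oT B W) ⊓ F (fun w => bmem (vN B w) u) := by
  refine le_antisymm ?_ ?_
  · show (⨆ a : W → B, F a ⊓ beq u (subN a)) ≤ _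
    refine iSup_le fun a => le_inf ?_ ?_
    · have hE : Ext fun x : BSet B => bsub x (oT B W) := by
        intro x y
        show beq x y ⊓ bsub x (oT B W) ≤ bsub y (oT B W)
        rw [bsub_eq, bsub_eq]
        refine le_iInf fun z => ?_
        rw [le_himp_iff]
        calc beq x y ⊓ (⨅ z, bmem z x ⇨ bmem z (oT B W)) ⊓ bmem z y
            ≤ (bmem z x ⇨ bmem z (oT B W)) ⊓ bmem z x := by
              refine le_inf (inf_le_left.trans (inf_le_right.trans (iInf_le _ z))) ?_
              refine le_trans (inf_le_inf_right _ inf_le_left) ?_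
              rw [beq_symm]
              exact bmem_congr_right _ _ _
          _ ≤ _ := himp_inf_le
      have h1 : beq (subN a) u ⊓ bsub (subN a) (oT B W) ≤ bsub u (oT B W) := hE (subN a) u
      rw [subN_sub, inf_top_eq, beq_symm] at h1
      exact inf_le_right.trans h1
    · have h2 := hF (beq u (subN a)) a (fun w => bmem (vN B w) u) (fun w => ?_) (fun w => ?_)
      · rwa [inf_comm]
      · rw [beq_symm, ← vN_mem_subN a w]
        exact bmem_congr_right _ _ _
      · show beq u (subN a) ⊓ bmem (vN B w) u ≤ a w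
        conv_rhs => rw [← vN_mem_subN a w]
        exact bmem_congr_right _ _ _
  · show _ ≤ (⨆ a : W → B, F a ⊓ beq u (subN a))
    refine le_iSup_of_le (fun w => bmem (vN B w) u) ?_
    exact le_inf inf_le_right (inf_le_left.trans (bsub_le_beq_subN u))

end

/-! ### Countable sets -/

theorem isCountable_of_cover {U : UF B} {K : Type u} [Countable K] (y : K → BSet B) {c : B}
    (hc : c ∈ U) (a : BSet B) (h : ∀ z, c ⊓ bmem z a ≤ ⨆ k, beq z (y k)) :
    IsCountable (Emem U) (cls U a) := by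
  classical
  rw [isCountable_iff]
  obtain ⟨e, he⟩ := exists_injective_nat K
  let N : K → BSet B := fun k => vN B (ULift.up.{u} (e k))
  let r : K → K → Prop := fun k k' => e k < e k'
  have hr : IsWellOrder K r := by
    have : IsWellOrder K (Order.Preimage e (· < ·)) :=
      (⟨⟨e, he⟩, Iff.rfl⟩ : (Order.Preimage e (· < ·)) ↪r (· < · : ℕ → ℕ → Prop)).isWellOrder
    exact this
  let wt : K → B := fun k => bmem (y k) a ⊓ ⨅ k' : {k' : K // r k' k}, (beq (y k) (y k'.1))ᶜ
  let f : BSet B := mk K (fun k => opair (y k) (N k)) wt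
  have hbf : ∀ p, bmem p f = ⨆ k : K, wt k ⊓ beq p (opair (y k) (N k)) := fun p => rfl
  have hrel : ∀ x z, bmem (opair x z) f = ⨆ k : K, wt k ⊓ (beq x (y k) ⊓ beq z (N k)) := by
    intro x z
    rw [hbf]
    simp only [beq_opair]
  have hN : ∀ k k' : K, k ≠ k' → beq (N k) (N k') = ⊥ := by
    intro k k' hkk
    apply vN_beq_of_ne
    intro h
    exact hkk (he (congrArg ULift.down h))
  have hy : ∀ k k' : K, k ≠ k' → wt k ⊓ wt k' ⊓ beq (y k) (y k') = ⊥ := by
    have key : ∀ k k' : K, r k' k → wt k ⊓ wt k' ⊓ beq (y k) (y k') = ⊥ := by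
      intro k k' hkk
      rw [← le_bot_iff]
      calc wt k ⊓ wt k' ⊓ beq (y k) (y k') ≤ (beq (y k) (y k'))ᶜ ⊓ beq (y k) (y k') := by
            refine inf_le_inf_right _ (inf_le_left.trans (inf_le_right.trans ?_))
            exact iInf_le _ (⟨k', hkk⟩ : {k' : K // r k' k})
        _ ≤ ⊥ := by simp
    intro k k' hkk
    rcases lt_trichotomy (e k) (e k') with h1 | h1 | h1
    · rw [inf_comm (wt k), beq_symm]
      exact key k' k h1
    · exact absurd (he h1) hkk
    · exact key k k' h1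
  refine ⟨cls U f, ⟨?_, ?_⟩, ?_⟩
  · intro p hp
    obtain ⟨p, rfl⟩ := cls_surj U p
    have h1 : bmem p f ≤ ⨆ x, ⨆ z, (bmem x a ⊓ bmem z (omega B)) ⊓ beq p (opair x z) := by
      rw [hbf]
      refine iSup_le fun k => le_iSup₂_of_le (y k) (N k) ?_
      refine inf_le_inf_right _ (le_inf inf_le_left ?_)
      show _ ≤ bmem (vN B (ULift.up.{u} (e k))) (oT B (ULift.{u} ℕ))
      rw [vN_mem_oT]
      exact le_top
    have h2 := U.mono hp h1
    have hval : ∀ x z, ∀ V : UF B, ((Emem V (cls V x) (cls V a) ∧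
        Emem V (cls V z) (cls V (omega B))) ∧ IsPair (Emem V) (cls V p) (cls V x) (cls V z)) ↔
        (bmem x a ⊓ bmem z (omega B)) ⊓ beq p (opair x z) ∈ V := by
      intro x z V
      rw [V.inf_mem_iff, V.inf_mem_iff, isPair_iff, cls_eq]
      exact Iff.rfl
    have hE2 : ∀ x, Ext fun z => (bmem x a ⊓ bmem z (omega B)) ⊓ beq p (opair x z) := fun x =>
      HasTV.ext_of (P := fun V z => (Emem V (cls V x) (cls V a) ∧
        Emem V z (cls V (omega B))) ∧ IsPair (Emem V) (cls V p) (cls V x) z) (hval x)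
    have hE1 : Ext fun x => ⨆ z, (bmem x a ⊓ bmem z (omega B)) ⊓ beq p (opair x z) := by
      refine Ext.iSup fun z => ?_
      exact HasTV.ext_of (P := fun V x => (Emem V x (cls V a) ∧
        Emem V (cls V z) (cls V (omega B))) ∧ IsPair (Emem V) (cls V p) x (cls V z))
        (fun x V => hval x z V)
    obtain ⟨x, hx⟩ := (iSup_mem_iff hE1).mp h2
    obtain ⟨z, hz⟩ := (iSup_mem_iff (hE2 x)).mp hx
    rw [← hval] at hz
    exact ⟨_, _, hz.1.1, hz.1.2, hz.2⟩
  · intro x hx
    obtain ⟨x, rfl⟩ := cls_surj U x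
    have hex : ∃ z, Rel (Emem U) (cls U f) (cls U x) z := by
      have h1 : c ⊓ bmem x a ≤ ⨆ z, bmem (opair x z) f := by
        have h3 : c ⊓ bmem x a ≤ ⨆ k, beq x (y k) ⊓ ⨅ k' : {k' : K // r k' k},
            (beq x (y k'.1))ᶜ := (h x).trans (iSup_first r fun k => beq x (y k))
        refine (le_inf inf_le_right h3).trans ?_
        rw [inf_iSup_eq]
        refine iSup_le fun k => le_iSup_of_le (N k) ?_
        rw [hrel]
        refine le_iSup_of_le k (le_inf (le_inf ?_ (le_iInf fun k' => ?_)) (le_inf ?_ ?_))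
        · refine le_trans (le_inf (inf_le_right.trans inf_le_left) inf_le_left) ?_
          exact bmem_congr_left _ _ _
        · rw [le_compl_iff_disjoint_right, disjoint_iff_inf_le]
          refine UF.le_of_forall fun V hV => ?_
          simp only [V.inf_mem_iff] at hV
          obtain ⟨⟨-, h4, h5⟩, h6⟩ := hV
          have h7 := V.mono h5 (iInf_le _ k')
          rw [V.compl_mem_iff] at h7
          exact absurd (V.mono (V.inf_mem h4 h6) (beq_trans _ _ _)) h7
        · exact inf_le_right.trans inf_le_left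
        · rw [beq_refl]; exact le_top
      have h2 := U.mono (U.inf_mem hc hx) h1
      have hE : Ext fun z => bmem (opair x z) f :=
        HasTV.ext_of (P := fun V z => Rel (Emem V) (cls V f) (cls V x) z)
          (fun z V => rel_iff)
      obtain ⟨z, hz⟩ := (iSup_mem_iff hE).mp h2
      exact ⟨cls U z, rel_iff.mpr hz⟩
    obtain ⟨z, hz⟩ := hex
    refine ⟨z, hz, fun z' hz' => ?_⟩
    obtain ⟨z, rfl⟩ := cls_surj U z
    obtain ⟨z', rfl⟩ := cls_surj U z'
    rw [rel_iff] at hz hz'
    rw [cls_eq]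
    refine U.mono (U.inf_mem hz hz') ?_
    rw [hrel, hrel, iSup_inf_eq]
    refine iSup_le fun w => ?_
    rw [inf_iSup_eq]
    refine iSup_le fun w' => ?_
    by_cases hww : w = w'
    · subst hww
      refine UF.le_of_forall fun V hV => ?_
      simp only [V.inf_mem_iff, ← cls_eq] at hV ⊢
      rw [hV.1.2.2, hV.2.2.2]
    · refine UF.le_of_forall fun V hV => ?_
      exfalso
      simp only [V.inf_mem_iff] at hV
      obtain ⟨⟨h3, h4, -⟩, h5, h6, -⟩ := hV
      have h7 : beq (y w) (y w') ∈ V := V.mono (V.inf_mem (by rwa [beq_symm] at h4) h6)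
        (beq_trans (y w) x (y w'))
      have h8 := V.inf_mem (V.inf_mem h3 h5) h7
      rw [hy w w' hww] at h8
      exact V.bot_notMem h8
  · intro x x' z hx hx'
    obtain ⟨x, rfl⟩ := cls_surj U x
    obtain ⟨x', rfl⟩ := cls_surj U x'
    obtain ⟨z, rfl⟩ := cls_surj U z
    rw [rel_iff] at hx hx'
    rw [cls_eq]
    refine U.mono (U.inf_mem hx hx') ?_
    rw [hrel, hrel, iSup_inf_eq]
    refine iSup_le fun w => ?_
    rw [inf_iSup_eq]
    refine iSup_le fun w' => ?_
    by_cases hww : w = w'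
    · subst hww
      refine UF.le_of_forall fun V hV => ?_
      simp only [V.inf_mem_iff, ← cls_eq] at hV ⊢
      rw [hV.1.2.1, hV.2.2.1]
    · refine UF.le_of_forall fun V hV => ?_
      exfalso
      simp only [V.inf_mem_iff, ← cls_eq] at hV
      have h3 : cls V (N w) = cls V (N w') := hV.1.2.2.symm.trans hV.2.2.2
      rw [cls_eq, hN w w' hww] at h3
      exact V.bot_notMem h3

/-! ### Sequences -/

/-- The name of the sequence of the sets `g n`. -/
noncomputable def seqN (g : ℕ → BSet B) : BSet B :=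
  mk (ULift.{u} ℕ) (fun n => opair (vN B n) (g n.down)) (fun _ => ⊤)

theorem bmem_seqN (g : ℕ → BSet B) (p : BSet B) :
    bmem p (seqN g) = ⨆ n : ℕ, beq p (opair (vN B (ULift.up.{u} n)) (g n)) := by
  show (⨆ n : ULift.{u} ℕ, ⊤ ⊓ beq p (opair (vN B n) (g n.down))) = _
  simp only [top_inf_eq]
  refine le_antisymm (iSup_le fun n => ?_) (iSup_le fun n => ?_)
  · exact le_iSup (fun n : ℕ => beq p (opair (vN B (ULift.up.{u} n)) (g n))) n.down
  · exact le_iSup (fun n : ULift.{u} ℕ => beq p (opair (vN B n) (g n.down))) (ULift.up n)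

theorem bmem_opair_seqN (g : ℕ → BSet B) (x z : BSet B) :
    bmem (opair x z) (seqN g) = ⨆ n : ℕ, beq x (vN B (ULift.up.{u} n)) ⊓ beq z (g n) := by
  rw [bmem_seqN]
  simp only [beq_opair]

theorem vN_nat_ne {n m : ℕ} (h : n ≠ m) :
    beq (vN B (ULift.up.{u} n)) (vN B (ULift.up.{u} m)) = ⊥ :=
  vN_beq_of_ne fun h' => h (congrArg ULift.down h')

theorem rel_seqN {U : UF B} (g : ℕ → BSet B) (n : ℕ) (z : Mod U) :
    Rel (Emem U) (cls U (seqN g)) (cls U (vN B (ULift.up.{u} n))) z ↔ z = cls U (g n) := by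
  obtain ⟨z, rfl⟩ := cls_surj U z
  rw [rel_iff, cls_eq, bmem_opair_seqN]
  have : (⨆ m : ℕ, beq (vN B (ULift.up.{u} n)) (vN B (ULift.up.{u} m)) ⊓ beq z (g m)) =
      beq z (g n) := by
    refine le_antisymm (iSup_le fun m => ?_) (le_iSup_of_le n ?_)
    · by_cases h : n = m
      · subst h; exact inf_le_right
      · rw [vN_nat_ne h, bot_inf_eq]; exact bot_le
    · rw [beq_refl, top_inf_eq]
  rw [this]

theorem rel_seqN_omega {U : UF B} (g : ℕ → BSet B) (n z : Mod U)
    (h : Rel (Emem U) (cls U (seqN g)) n z) : Emem U n (cls U (omega B)) := by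
  obtain ⟨n, rfl⟩ := cls_surj U n
  obtain ⟨z, rfl⟩ := cls_surj U z
  rw [rel_iff, bmem_opair_seqN] at h
  rw [Emem_cls, bmem_omega]
  exact U.mono h (iSup_mono fun m => inf_le_left)

/-- A property of the elements of a sequence. -/
theorem forall_rel_seqN {U : UF B} (g : ℕ → BSet B) {Q : ∀ V : UF B, Mod V → Mod V → Prop}
    (hQ : ∀ x z : BSet B, HasTV fun V => Q V (cls V x) (cls V z)) {b : B} (hb : b ∈ U)
    (h : ∀ (n : ℕ) (V : UF B), b ∈ V → Q V (cls V (vN B (ULift.up.{u} n))) (cls V (g n)))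
    (x z : Mod U) (hr : Rel (Emem U) (cls U (seqN g)) x z) : Q U x z := by
  have h1 := rel_seqN_omega g x z hr
  refine forall_mem_omega (P := fun V x => ∀ z, Rel (Emem V) (cls V (seqN g)) x z → Q V x z)
    (fun x => HasTV.all fun z => (hasTV_rel _ _ _).imp (hQ x z)) hb (fun n V hV z hz => ?_) x h1
      z hr
  rw [rel_seqN] at hz
  subst hz
  exact h n V hV

theorem existsUnique_rel_seqN {U : UF B} (g : ℕ → BSet B) (n : Mod U)
    (hn : Emem U n (cls U (omega B))) : ∃! x, Rel (Emem U) (cls U (seqN g)) n x := by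
  refine forall_mem_omega (P := fun V n => ∃! x, Rel (Emem V) (cls V (seqN g)) n x)
    (fun x => HasTV.existsUnique fun z => hasTV_rel _ _ _) U.top_mem (fun n V _ => ?_) n hn
  exact ⟨cls V (g n), (rel_seqN g n _).mpr rfl, fun z hz => (rel_seqN g n z).mp hz⟩

theorem pair_of_mem_seqN {U : UF B} (g : ℕ → BSet B) (p : Mod U)
    (hp : Emem U p (cls U (seqN g))) :
    ∃ n x, Emem U n (cls U (omega B)) ∧ IsPair (Emem U) p n x := by
  obtain ⟨p, rfl⟩ := cls_surj U p
  have h1 : bmem p (seqN g) ≤ ⨆ x, ⨆ z, bmem x (omega B) ⊓ beq p (opair x z) := by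
    rw [bmem_seqN]
    refine iSup_le fun n => le_iSup₂_of_le (vN B (ULift.up.{u} n)) (g n) (le_inf ?_ le_rfl)
    show _ ≤ bmem (vN B (ULift.up.{u} n)) (oT B (ULift.{u} ℕ))
    rw [vN_mem_oT]
    exact le_top
  have h2 := U.mono hp h1
  have hval : ∀ x z, ∀ V : UF B, (Emem V (cls V x) (cls V (omega B)) ∧
      IsPair (Emem V) (cls V p) (cls V x) (cls V z)) ↔
      bmem x (omega B) ⊓ beq p (opair x z) ∈ V := by
    intro x z V
    rw [V.inf_mem_iff, isPair_iff, cls_eq]
    exact Iff.rfl
  have hE2 : ∀ x, Ext fun z => bmem x (omega B) ⊓ beq p (opair x z) := fun x =>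
    HasTV.ext_of (P := fun V z => Emem V (cls V x) (cls V (omega B)) ∧
      IsPair (Emem V) (cls V p) (cls V x) z) (hval x)
  have hE1 : Ext fun x => ⨆ z, bmem x (omega B) ⊓ beq p (opair x z) := by
    refine Ext.iSup fun z => ?_
    exact HasTV.ext_of (P := fun V x => Emem V x (cls V (omega B)) ∧
      IsPair (Emem V) (cls V p) x (cls V z)) (fun x V => hval x z V)
  obtain ⟨x, hx⟩ := (iSup_mem_iff hE1).mp h2
  obtain ⟨z, hz⟩ := (iSup_mem_iff (hE2 x)).mp hx
  rw [← hval] at hz
  exact ⟨_, _, hz.1, hz.2⟩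

end Pool.Agent.BVM
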