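import Pool.Agent.Lib_helper75.BVM.Ordinals
import Pool.Agent.Lib_helper75.BVM.Notions

/-!
Truth values of notions that are uniformly defined in all the quotient models.
-/

set_option autoImplicit false

universe u v

namespace Pool.Agent.BVM

open BSet

variable {B : Type u} [CompleteBooleanAlgebra B]

/-- The property `P` of ultrafilters has a truth value. -/
def HasTV (P : UF B → Prop) : Prop := ∃ b : B, ∀ U : UF B, P U ↔ b ∈ U

namespace HasTV

theorem mem (x y : BSet B) : HasTV fun U => Emem U (cls U x) (cls U y) :=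
  ⟨bmem x y, fun _ => Iff.rfl⟩

theorem eq (x y : BSet B) : HasTV fun U => cls U x = cls U y :=
  ⟨beq x y, fun U => cls_eq U⟩

theorem not {P : UF B → Prop} (h : HasTV P) : HasTV fun U => ¬ P U := by
  obtain ⟨b, hb⟩ := h
  exact ⟨bᶜ, fun U => by rw [U.compl_mem_iff, ← hb]⟩

theorem and {P Q : UF B → Prop} (h : HasTV P) (h' : HasTV Q) : HasTV fun U => P U ∧ Q U := by
  obtain ⟨b, hb⟩ := h
  obtain ⟨b', hb'⟩ := h'
  exact ⟨b ⊓ b', fun U => by rw [U.inf_mem_iff, ← hb, ← hb']⟩

theorem or {P Q : UF B → Prop} (h : HasTV P) (h' : HasTV Q) : HasTV fun U => P U ∨ Q U := by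
  obtain ⟨b, hb⟩ := h
  obtain ⟨b', hb'⟩ := h'
  exact ⟨b ⊔ b', fun U => by rw [U.sup_mem_iff, ← hb, ← hb']⟩

theorem imp {P Q : UF B → Prop} (h : HasTV P) (h' : HasTV Q) : HasTV fun U => P U → Q U := by
  obtain ⟨b, hb⟩ := h
  obtain ⟨b', hb'⟩ := h'
  exact ⟨b ⇨ b', fun U => by rw [U.himp_mem_iff, ← hb, ← hb']⟩

theorem iff {P Q : UF B → Prop} (h : HasTV P) (h' : HasTV Q) : HasTV fun U => (P U ↔ Q U) := by
  have : (fun U => (P U ↔ Q U)) = fun U => (P U → Q U) ∧ (Q U → P U) := by
    funext U; exact propext iff_iff_implies_and_implies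
  rw [this]
  exact (h.imp h').and (h'.imp h)

theorem ext_of {P : ∀ U : UF B, Mod U → Prop} {φ : BSet B → B}
    (h : ∀ x, ∀ U : UF B, P U (cls U x) ↔ φ x ∈ U) : Ext φ := by
  intro x y
  refine UF.le_of_forall fun U hU => ?_
  obtain ⟨h1, h2⟩ := U.inf_mem_iff.mp hU
  rw [← h] at h2 ⊢
  rw [← (cls_eq U).mpr h1]
  exact h2

theorem all {P : ∀ U : UF B, Mod U → Prop} (h : ∀ x : BSet B, HasTV fun U => P U (cls U x)) :
    HasTV fun U => ∀ x : Mod U, P U x := by
  choose φ hφ using h
  refine ⟨⨅ x, φ x, fun U => ?_⟩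
  rw [iInf_mem_iff (ext_of hφ)]
  constructor
  · intro h x
    exact (hφ x U).mp (h _)
  · intro h x
    obtain ⟨x, rfl⟩ := cls_surj U x
    exact (hφ x U).mpr (h x)

theorem ex {P : ∀ U : UF B, Mod U → Prop} (h : ∀ x : BSet B, HasTV fun U => P U (cls U x)) :
    HasTV fun U => ∃ x : Mod U, P U x := by
  choose φ hφ using h
  refine ⟨⨆ x, φ x, fun U => ?_⟩
  rw [iSup_mem_iff (ext_of hφ)]
  constructor
  · rintro ⟨x, h⟩
    obtain ⟨x, rfl⟩ := cls_surj U x
    exact ⟨x, (hφ x U).mp h⟩
  · rintro ⟨x, h⟩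
    exact ⟨cls U x, (hφ x U).mpr h⟩

/-- Fullness: a witness that works for all the ultrafilters. -/
theorem exists_witness {P : ∀ U : UF B, Mod U → Prop}
    (h : ∀ x : BSet B, HasTV fun U => P U (cls U x)) :
    ∃ x : BSet B, ∀ U : UF B, (∃ y : Mod U, P U y) → P U (cls U x) := by
  choose φ hφ using h
  obtain ⟨x, hx⟩ := exists_eq_iSup (ext_of hφ)
  refine ⟨x, fun U hU => ?_⟩
  obtain ⟨y, hy⟩ := hU
  obtain ⟨y, rfl⟩ := cls_surj U y
  refine (hφ x U).mpr ?_
  rw [hx]
  exact U.mono ((hφ y U).mp hy) (le_iSup φ y)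

theorem existsUnique {P : ∀ U : UF B, Mod U → Prop}
    (h : ∀ x : BSet B, HasTV fun U => P U (cls U x)) :
    HasTV fun U => ∃! x : Mod U, P U x := by
  unfold ExistsUnique
  refine ex fun x => (h x).and (all fun y => (h y).imp (eq y x))

end HasTV

section

variable (x y z w : BSet B)

theorem hasTV_isSub : HasTV fun U => IsSub (Emem U) (cls U x) (cls U y) := by
  unfold IsSub
  exact HasTV.all fun z => (HasTV.mem z x).imp (HasTV.mem z y)

theorem hasTV_isUPair : HasTV fun U => IsUPair (Emem U) (cls U x) (cls U y) (cls U z) := by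
  unfold IsUPair
  exact HasTV.all fun w => (HasTV.mem w x).iff ((HasTV.eq w y).or (HasTV.eq w z))

theorem hasTV_isPair : HasTV fun U => IsPair (Emem U) (cls U x) (cls U y) (cls U z) := by
  unfold IsPair
  exact HasTV.all fun w => (HasTV.mem w x).iff ((hasTV_isUPair w y y).or (hasTV_isUPair w y z))

theorem hasTV_rel : HasTV fun U => Rel (Emem U) (cls U x) (cls U y) (cls U z) := by
  unfold Rel
  exact HasTV.ex fun p => (hasTV_isPair p y z).and (HasTV.mem p x)

theorem hasTV_isFun : HasTV fun U => IsFun (Emem U) (cls U x) (cls U y) (cls U z) := by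
  unfold IsFun
  refine HasTV.and (HasTV.all fun p => (HasTV.mem p x).imp ?_)
    (HasTV.all fun a => (HasTV.mem a y).imp (HasTV.existsUnique fun b => hasTV_rel x a b))
  exact HasTV.ex fun a => HasTV.ex fun b => (HasTV.mem a y).and ((HasTV.mem b z).and
    (hasTV_isPair p a b))

theorem hasTV_isInj : HasTV fun U => IsInj (Emem U) (cls U x) (cls U y) (cls U z) := by
  unfold IsInj
  exact (hasTV_isFun x y z).and (HasTV.all fun a => HasTV.all fun a' => HasTV.all fun b =>
    (hasTV_rel x a b).imp ((hasTV_rel x a' b).imp (HasTV.eq a a')))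

theorem hasTV_isSucc : HasTV fun U => IsSucc (Emem U) (cls U x) (cls U y) := by
  unfold IsSucc
  exact HasTV.all fun z => (HasTV.mem z x).iff ((HasTV.mem z y).or (HasTV.eq z y))

theorem hasTV_isInductive : HasTV fun U => IsInductive (Emem U) (cls U x) := by
  unfold IsInductive
  refine HasTV.and (HasTV.ex fun e => (HasTV.mem e x).and (HasTV.all fun z => (HasTV.mem z e).not))
    (HasTV.all fun a => (HasTV.mem a x).imp (HasTV.ex fun s => (HasTV.mem s x).and
      (hasTV_isSucc s a)))

theorem hasTV_isOmega : HasTV fun U => IsOmega (Emem U) (cls U x) := by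
  unfold IsOmega
  exact (hasTV_isInductive x).and (HasTV.all fun y => (hasTV_isInductive y).imp (hasTV_isSub x y))

theorem hasTV_isCountable : HasTV fun U => IsCountable (Emem U) (cls U x) := by
  unfold IsCountable
  exact HasTV.ex fun w => HasTV.ex fun f => (hasTV_isOmega w).and (hasTV_isInj f x w)

theorem hasTV_isDiff : HasTV fun U => IsDiff (Emem U) (cls U x) (cls U y) (cls U z) := by
  unfold IsDiff
  exact HasTV.all fun w => (HasTV.mem w x).iff ((HasTV.mem w y).and (HasTV.mem w z).not)

theorem hasTV_almostSub : HasTV fun U => AlmostSub (Emem U) (cls U x) (cls U y) := by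
  unfold AlmostSub
  exact HasTV.ex fun d => (hasTV_isDiff d x y).and (hasTV_isCountable d)

theorem hasTV_isPreimage :
    HasTV fun U => IsPreimage (Emem U) (cls U x) (cls U y) (cls U z) (cls U w) := by
  unfold IsPreimage
  exact HasTV.all fun a => (HasTV.mem a x).iff ((HasTV.mem a z).and
    (HasTV.ex fun b => (hasTV_rel y a b).and (HasTV.mem b w)))

end

/-! ### Ordered pairs -/

namespace BSet

/-- The name of an ordered pair. -/
def opair (x y : BSet B) : BSet B := upair (upair x x) (upair x y)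

end BSet

variable {U : UF B}

theorem isUPair_iff {p : Mod U} {x y : BSet B} :
    IsUPair (Emem U) p (cls U x) (cls U y) ↔ p = cls U (upair x y) := by
  have h : IsUPair (Emem U) (cls U (upair x y)) (cls U x) (cls U y) := by
    intro z
    obtain ⟨z, rfl⟩ := cls_surj U z
    rw [Emem_cls, bmem_upair, U.sup_mem_iff, cls_eq, cls_eq]
  constructor
  · intro h'
    exact mod_ext _ _ fun z => (h' z).trans (h z).symm
  · rintro rfl
    exact h

theorem isPair_iff {p : Mod U} {x y : BSet B} :
    IsPair (Emem U) p (cls U x) (cls U y) ↔ p = cls U (opair x y) := by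
  have h : IsPair (Emem U) (cls U (opair x y)) (cls U x) (cls U y) := by
    intro z
    obtain ⟨z, rfl⟩ := cls_surj U z
    rw [isUPair_iff, isUPair_iff, Emem_cls, opair, bmem_upair, U.sup_mem_iff, cls_eq, cls_eq]
  constructor
  · intro h'
    exact mod_ext _ _ fun z => (h' z).trans (h z).symm
  · rintro rfl
    exact h

theorem rel_iff {f x y : BSet B} :
    Rel (Emem U) (cls U f) (cls U x) (cls U y) ↔ bmem (opair x y) f ∈ U := by
  unfold Rel
  simp only [isPair_iff]
  rw [exists_eq_left, Emem_cls]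

theorem isSub_iff {x y : BSet B} : IsSub (Emem U) (cls U x) (cls U y) ↔ bsub x y ∈ U :=
  mod_sub.symm

theorem cls_opair_inj {x y x' y' : BSet B} (h : cls U (opair x y) = cls U (opair x' y')) :
    cls U x = cls U x' ∧ cls U y = cls U y' := by
  have h1 : ∀ z : Mod U, (z = cls U (upair x x) ∨ z = cls U (upair x y)) ↔
      (z = cls U (upair x' x') ∨ z = cls U (upair x' y')) := by
    intro z
    have a1 := isPair_iff.mpr (rfl : cls U (opair x y) = _) z
    have a2 := isPair_iff.mpr (rfl : cls U (opair x' y') = _) z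
    rw [isUPair_iff, isUPair_iff] at a1 a2
    rw [← a1, ← a2, h]
  have hu : ∀ (a b a' b' : BSet B), cls U (upair a b) = cls U (upair a' b') →
      ∀ z : Mod U, (z = cls U a ∨ z = cls U b) ↔ (z = cls U a' ∨ z = cls U b') := by
    intro a b a' b' hab z
    have a1 := isUPair_iff.mpr (rfl : cls U (upair a b) = _) z
    have a2 := isUPair_iff.mpr (rfl : cls U (upair a' b') = _) z
    rw [← a1, ← a2, hab]
  have hx : cls U x = cls U x' := by
    rcases (h1 (cls U (upair x x))).mp (Or.inl rfl) with h2 | h2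
    · have := (hu _ _ _ _ h2 (cls U x)).mp (Or.inl rfl)
      tauto
    · have := (hu _ _ _ _ h2 (cls U x')).mpr (Or.inl rfl)
      rcases this with h3 | h3 <;> exact h3.symm
  refine ⟨hx, ?_⟩
  rcases (h1 (cls U (upair x y))).mp (Or.inr rfl) with h2 | h2
  · -- `{x, y} = {x'}`
    have h3 : cls U y = cls U x' := by
      have := (hu _ _ _ _ h2 (cls U y)).mp (Or.inr rfl)
      tauto
    rcases (h1 (cls U (upair x' y'))).mpr (Or.inr rfl) with h4 | h4
    · have h5 := (hu _ _ _ _ h4 (cls U y')).mp (Or.inr rfl)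
      rw [h3, ← hx]
      rcases h5 with h5 | h5 <;> exact h5.symm
    · have h5 := (hu _ _ _ _ h4 (cls U y')).mp (Or.inr rfl)
      rcases h5 with h5 | h5
      · rw [h3, ← hx, h5]
      · exact h5.symm
  · -- `{x, y} = {x', y'}`
    have h3 := (hu _ _ _ _ h2 (cls U y)).mp (Or.inr rfl)
    have h4 := (hu _ _ _ _ h2 (cls U y')).mpr (Or.inr rfl)
    rcases h3 with h3 | h3
    · rcases h4 with h4 | h4
      · rw [h3, h4, hx]
      · exact h4.symm
    · exact h3

theorem beq_opair (x y x' y' : BSet B) :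
    beq (opair x y) (opair x' y') = beq x x' ⊓ beq y y' := by
  refine UF.eq_of_forall fun U => ?_
  rw [U.inf_mem_iff, ← cls_eq, ← cls_eq, ← cls_eq]
  constructor
  · exact cls_opair_inj
  · rintro ⟨h1, h2⟩
    have := (isPair_iff (U := U) (x := x) (y := y)).mpr rfl
    rw [h1, h2, isPair_iff] at this
    exact this

/-! ### The natural numbers -/

theorem isInductive_omega (U : UF B) : IsInductive (Emem U) (cls U (omega B)) := by
  obtain ⟨w, h1, h2⟩ : ∃ w : Mod U, w = cls U (omega B) ∧ IsInductive (Emem U) w := by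
    refine ⟨_, rfl, ⟨cls U (vN B (ULift.up.{u} 0)), ?_, ?_⟩, ?_⟩
    · rw [Emem_cls]
      unfold omega
      rw [vN_mem_oT]
      exact U.top_mem
    · intro z
      obtain ⟨z, rfl⟩ := cls_surj U z
      rw [Emem_cls, bmem_zero]
      exact U.bot_notMem
    · have hTV : ∀ x : BSet B, HasTV fun U => ∃ s, Emem U s (cls U (omega B)) ∧
          IsSucc (Emem U) s (cls U x) := fun x =>
        HasTV.ex fun s => (HasTV.mem s _).and (hasTV_isSucc s x)
      choose χ hχ using hTV
      have hext : Ext χ := HasTV.ext_of (P := fun U x => ∃ s, Emem U s (cls U (omega B)) ∧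
          IsSucc (Emem U) s x) hχ
      have hn : ∀ n : ℕ, χ (vN B (ULift.up.{u} n)) = ⊤ := by
        intro n
        refine top_unique (UF.le_of_forall fun V _ => ?_)
        rw [← hχ]
        refine ⟨cls V (vN B (ULift.up.{u} (n + 1))), ?_, ?_⟩
        · rw [Emem_cls]
          unfold omega
          rw [vN_mem_oT]
          exact V.top_mem
        · intro z
          obtain ⟨z, rfl⟩ := cls_surj V z
          rw [Emem_cls, bmem_succ, V.sup_mem_iff, Emem_cls, cls_eq]
      intro x hx
      obtain ⟨x, rfl⟩ := cls_surj U x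
      refine (hχ x U).mpr (U.mono hx ?_)
      have h1 := iInf_omega hext
      simp only [hn, iInf_top, iInf_eq_top, himp_eq_top_iff] at h1
      exact h1 x
  rw [← h1]
  exact h2

theorem isOmega_omega (U : UF B) : IsOmega (Emem U) (cls U (omega B)) := by
  refine ⟨isInductive_omega U, fun w hw x hx => ?_⟩
  obtain ⟨w, rfl⟩ := cls_surj U w
  obtain ⟨x, rfl⟩ := cls_surj U x
  obtain ⟨t, ht⟩ := hasTV_isInductive w
  have hn : ∀ n : ℕ, t ≤ bmem (vN B (ULift.up.{u} n)) w := by
    intro n
    refine UF.le_of_forall fun V hV => ?_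
    rw [← ht] at hV
    obtain ⟨⟨e, he1, he2⟩, hs⟩ := hV
    induction n with
    | zero =>
      have : e = cls V (vN B (ULift.up.{u} 0)) := by
        refine mod_ext _ _ fun z => ?_
        constructor
        · intro h; exact absurd h (he2 z)
        · intro h
          obtain ⟨z, rfl⟩ := cls_surj V z
          rw [Emem_cls, bmem_zero] at h
          exact absurd h V.bot_notMem
      rw [← Emem_cls, ← this]
      exact he1
    | succ n ih =>
      obtain ⟨s, hs1, hs2⟩ := hs (cls V (vN B (ULift.up.{u} n))) ih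
      have : s = cls V (vN B (ULift.up.{u} (n + 1))) := by
        refine mod_ext _ _ fun z => ?_
        rw [hs2 z]
        obtain ⟨z, rfl⟩ := cls_surj V z
        rw [Emem_cls, Emem_cls, cls_eq, bmem_succ, V.sup_mem_iff]
      rw [← Emem_cls, ← this]
      exact hs1
  have h1 : t ⊓ bmem x (omega B) ≤ bmem x w := by
    rw [bmem_omega, inf_iSup_eq]
    refine iSup_le fun n => ?_
    refine le_trans (le_inf inf_le_right (inf_le_left.trans (hn n))) ?_
    rw [beq_symm]
    exact bmem_congr_left _ _ _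
  exact U.mono (U.inf_mem ((ht U).mp hw) hx) h1

theorem isOmega_iff {w : Mod U} : IsOmega (Emem U) w ↔ w = cls U (omega B) := by
  constructor
  · intro h
    exact mod_ext _ _ fun z => ⟨fun hz => h.2 _ (isInductive_omega U) z hz,
      fun hz => (isOmega_omega U).2 _ h.1 z hz⟩
  · rintro rfl
    exact isOmega_omega U

theorem isCountable_iff {a : Mod U} :
    IsCountable (Emem U) a ↔ ∃ f, IsInj (Emem U) f a (cls U (omega B)) := by
  unfold IsCountable
  constructor
  · rintro ⟨w, f, hw, hf⟩
    rw [isOmega_iff] at hw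
    subst hw
    exact ⟨f, hf⟩
  · rintro ⟨f, hf⟩
    exact ⟨_, f, isOmega_omega U, hf⟩

end Pool.Agent.BVM
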