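import Pool.Agent.Lib_helper75.BVM.Los

/-!
The quotient of the universe of names by an ultrafilter is a model of ZFC.
-/

set_option autoImplicit false

universe u v

namespace Pool.Agent.BVM

open BSet

variable {B : Type u} [CompleteBooleanAlgebra B]

namespace BSet

theorem Ext.himp {φ ψ : BSet B → B} (h : Ext φ) (h' : Ext ψ) : Ext (fun x => φ x ⇨ ψ x) := by
  have : (fun x => φ x ⇨ ψ x) = fun x => ψ x ⊔ (φ x)ᶜ := by
    funext x; rw [himp_eq]
  rw [this]
  exact h'.sup h.compl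

theorem foundation_aux (x : BSet B) (c : B)
    (hc : ∀ y, c ⊓ bmem y x ≤ ⨆ z, bmem z x ⊓ bmem z y) (y : BSet B) : c ⊓ bmem y x = ⊥ := by
  induction y with
  | mk I e w ih =>
    rw [← le_bot_iff]
    have h1 : (⨆ z, bmem z x ⊓ bmem z (mk I e w)) ≤ ⨆ i : I, bmem (e i) x := by
      refine iSup_le fun z => ?_
      rw [inf_comm, bmem, iSup_inf_eq]
      refine iSup_mono fun i => ?_
      show w i ⊓ beq z (e i) ⊓ bmem z x ≤ bmem (e i) x
      rw [inf_assoc]
      exact inf_le_right.trans (bmem_congr_left _ _ _)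
    calc c ⊓ bmem (mk I e w) x ≤ c ⊓ ⨆ i : I, bmem (e i) x :=
          le_inf inf_le_left ((hc _).trans h1)
      _ = ⨆ i : I, c ⊓ bmem (e i) x := inf_iSup_eq _ _
      _ ≤ ⊥ := iSup_le fun i => (ih i).le

theorem bmem_self (x : BSet B) : bmem x x = ⊥ := by
  induction x with
  | mk I e w ih =>
    rw [← le_bot_iff]
    conv_lhs => unfold bmem
    refine iSup_le fun i => ?_
    have h1 : (mk I e w).wt i ≤ bmem (e i) (mk I e w) := wt_le_bmem (mk I e w) i
    calc (mk I e w).wt i ⊓ beq (mk I e w) ((mk I e w).elt i)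
        ≤ bmem (e i) (mk I e w) ⊓ beq (mk I e w) (e i) := inf_le_inf_right _ h1
      _ ≤ bmem (e i) (e i) := by rw [inf_comm]; exact bmem_congr_right _ _ _
      _ ≤ ⊥ := (ih i).le

/-- Unordered pairs. -/
def upair (x y : BSet B) : BSet B := mk (ULift Bool) (fun b => cond b.down x y) (fun _ => ⊤)

theorem bmem_upair (x y z : BSet B) : bmem z (upair x y) = beq z x ⊔ beq z y := by
  show (⨆ b : ULift Bool, (⊤ : B) ⊓ beq z (cond b.down x y)) = _
  simp only [top_inf_eq]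
  refine le_antisymm (iSup_le fun b => ?_) (sup_le ?_ ?_)
  · rcases b with ⟨_ | _⟩
    · exact le_sup_right
    · exact le_sup_left
  · exact le_iSup (fun b : ULift Bool => beq z (cond b.down x y)) ⟨true⟩
  · exact le_iSup (fun b : ULift Bool => beq z (cond b.down x y)) ⟨false⟩

/-- Unions. -/
def sUnion (x : BSet B) : BSet B :=
  mk (Σ i : x.Idx, (x.elt i).Idx) (fun p => (x.elt p.1).elt p.2)
    (fun p => x.wt p.1 ⊓ (x.elt p.1).wt p.2)

theorem bmem_sUnion (x z : BSet B) : bmem z (sUnion x) = ⨆ y, bmem y x ⊓ bmem z y := by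
  rw [iSup_bmem (ext_bmem_right z)]
  show (⨆ p : (Σ i : x.Idx, (x.elt i).Idx), (x.wt p.1 ⊓ (x.elt p.1).wt p.2) ⊓
    beq z ((x.elt p.1).elt p.2)) = ⨆ i : x.Idx, x.wt i ⊓ bmem z (x.elt i)
  rw [iSup_sigma]
  refine iSup_congr fun i => ?_
  unfold bmem
  rw [inf_iSup_eq]
  refine iSup_congr fun j => ?_
  rw [inf_assoc]

/-- Power sets. -/
def power (x : BSet B) : BSet B :=
  mk (x.Idx → B) (fun a => mk x.Idx x.elt a) (fun a => ⨅ i : x.Idx, a i ⇨ bmem (x.elt i) x)

theorem bmem_power (x z : BSet B) : bmem z (power x) = bsub z x := by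
  refine le_antisymm ?_ ?_
  · refine iSup_le fun a => ?_
    show (⨅ i : x.Idx, a i ⇨ bmem (x.elt i) x) ⊓ beq z (mk x.Idx x.elt a) ≤ bsub z x
    have h : Ext (fun y => bsub y x) := by
      have : (fun y => bsub y x) = fun y => ⨅ w, bmem w y ⇨ bmem w x := by
        funext y; exact bsub_eq y x
      rw [this]
      exact Ext.iInf fun w => (ext_bmem_right w).himp (Ext.const _)
    rw [inf_comm, beq_symm]
    exact h (mk x.Idx x.elt a) z
  · refine le_iSup_of_le (fun i : x.Idx => bmem (x.elt i) z) ?_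
    show bsub z x ≤ (⨅ i : x.Idx, bmem (x.elt i) z ⇨ bmem (x.elt i) x) ⊓
      beq z (mk x.Idx x.elt fun i => bmem (x.elt i) z)
    refine le_inf ?_ ?_
    · refine le_iInf fun i => ?_
      rw [bsub_eq]
      exact iInf_le _ (x.elt i)
    · rw [beq_eq]
      refine le_inf (le_iInf fun j => ?_) (le_iInf fun i => ?_)
      · rw [le_himp_iff]
        have h1 : bsub z x ⊓ z.wt j ≤ bmem (z.elt j) x := by
          refine le_trans (inf_le_inf_right _ (iInf_le _ j)) himp_inf_le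
        have h2 : bsub z x ⊓ z.wt j ≤ bmem (z.elt j) z := inf_le_right.trans (wt_le_bmem z j)
        refine (le_inf h1 h2).trans ?_
        show bmem (z.elt j) x ⊓ bmem (z.elt j) z ≤
          ⨆ i : x.Idx, bmem (x.elt i) z ⊓ beq (z.elt j) (x.elt i)
        conv_lhs => rw [bmem, iSup_inf_eq]
        refine iSup_mono fun i => ?_
        refine le_inf ?_ (inf_le_left.trans inf_le_right)
        rw [inf_assoc]
        exact inf_le_right.trans (bmem_congr_left _ _ _)
      · rw [le_himp_iff]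
        exact inf_le_right

/-- Separation. -/
def sep (x : BSet B) (φ : BSet B → B) : BSet B := mk x.Idx x.elt (fun i => x.wt i ⊓ φ (x.elt i))

theorem bmem_sep (x : BSet B) {φ : BSet B → B} (h : Ext φ) (z : BSet B) :
    bmem z (sep x φ) = bmem z x ⊓ φ z := by
  show (⨆ i : x.Idx, (x.wt i ⊓ φ (x.elt i)) ⊓ beq z (x.elt i)) =
    (⨆ i : x.Idx, x.wt i ⊓ beq z (x.elt i)) ⊓ φ z
  rw [iSup_inf_eq]
  refine iSup_congr fun i => le_antisymm ?_ ?_
  · refine le_inf (le_inf (inf_le_left.trans inf_le_left) inf_le_right) ?_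
    refine le_trans (le_inf inf_le_right (inf_le_left.trans inf_le_right)) ?_
    rw [beq_symm]
    exact h _ _
  · refine le_inf (le_inf (inf_le_left.trans inf_le_left) ?_) (inf_le_left.trans inf_le_right)
    refine le_trans (le_inf (inf_le_left.trans inf_le_right) inf_le_right) ?_
    exact h _ _

end BSet

variable {U : UF B}

theorem mod_ext (x y : Mod U) (h : ∀ z, Emem U z x ↔ Emem U z y) : x = y := by
  obtain ⟨x, rfl⟩ := cls_surj U x
  obtain ⟨y, rfl⟩ := cls_surj U y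
  rw [cls_eq, beq_eq', U.inf_mem_iff, iInf_mem_iff ((ext_bmem_left x).himp (ext_bmem_left y)),
    iInf_mem_iff ((ext_bmem_left y).himp (ext_bmem_left x))]
  refine ⟨fun z => ?_, fun z => ?_⟩
  · rw [U.himp_mem_iff]; exact (h (cls U z)).mp
  · rw [U.himp_mem_iff]; exact (h (cls U z)).mpr

theorem mod_foundation (x : Mod U) (hx : ∃ y, Emem U y x) :
    ∃ y, Emem U y x ∧ ∀ z, Emem U z x → ¬ Emem U z y := by
  obtain ⟨x, rfl⟩ := cls_surj U x
  obtain ⟨y, hy⟩ := hx
  obtain ⟨y, rfl⟩ := cls_surj U y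
  by_contra hcon
  push Not at hcon
  let c : B := ⨅ y, bmem y x ⇨ ⨆ z, bmem z x ⊓ bmem z y
  have hext : Ext (fun y => bmem y x ⇨ ⨆ z, bmem z x ⊓ bmem z y) :=
    (ext_bmem_left x).himp (Ext.iSup fun z => (Ext.const _).inf (ext_bmem_right z))
  have hc : c ∈ U := by
    show (⨅ y, bmem y x ⇨ ⨆ z, bmem z x ⊓ bmem z y) ∈ U
    rw [iInf_mem_iff hext]
    intro w
    rw [U.himp_mem_iff]
    intro hw
    obtain ⟨z, hz, hz'⟩ := hcon (cls U w) hw
    obtain ⟨z, rfl⟩ := cls_surj U z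
    exact U.mono (U.inf_mem hz hz') (le_iSup (fun z => bmem z x ⊓ bmem z w) z)
  have h1 := foundation_aux x c (fun y => by
    refine le_trans (inf_le_inf_right _ (iInf_le _ y)) himp_inf_le) y
  have h2 := U.inf_mem hc hy
  rw [h1] at h2
  exact U.bot_notMem h2

theorem mod_pairing (x y : Mod U) : ∃ p, ∀ z, Emem U z p ↔ (z = x ∨ z = y) := by
  obtain ⟨x, rfl⟩ := cls_surj U x
  obtain ⟨y, rfl⟩ := cls_surj U y
  refine ⟨cls U (upair x y), fun z => ?_⟩
  obtain ⟨z, rfl⟩ := cls_surj U z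
  rw [Emem_cls, bmem_upair, U.sup_mem_iff, cls_eq, cls_eq]

theorem mod_union (x : Mod U) : ∃ s, ∀ z, Emem U z s ↔ ∃ y, Emem U y x ∧ Emem U z y := by
  obtain ⟨x, rfl⟩ := cls_surj U x
  refine ⟨cls U (sUnion x), fun z => ?_⟩
  obtain ⟨z, rfl⟩ := cls_surj U z
  rw [Emem_cls, bmem_sUnion, iSup_mem_iff' ((ext_bmem_left x).inf (ext_bmem_right z))
    (fun y => Emem U y (cls U x) ∧ Emem U (cls U z) y)]
  intro y
  rw [U.inf_mem_iff]
  exact Iff.rfl

theorem mod_sub {x z : BSet B} : bsub z x ∈ U ↔ ∀ w, Emem U w (cls U z) → Emem U w (cls U x) := by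
  rw [bsub_eq, iInf_mem_iff ((ext_bmem_left z).himp (ext_bmem_left x))]
  constructor
  · intro h w
    obtain ⟨w, rfl⟩ := cls_surj U w
    exact (U.himp_mem_iff).mp (h w)
  · intro h w
    rw [U.himp_mem_iff]
    exact h (cls U w)

theorem mod_powerset (x : Mod U) : ∃ p, ∀ z, Emem U z p ↔ ∀ w, Emem U w z → Emem U w x := by
  obtain ⟨x, rfl⟩ := cls_surj U x
  refine ⟨cls U (power x), fun z => ?_⟩
  obtain ⟨z, rfl⟩ := cls_surj U z
  rw [Emem_cls, bmem_power]
  exact mod_sub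

theorem mod_separation (φ : Fml) (v : ℕ → Mod U) (a : Mod U) :
    ∃ b, ∀ z, Emem U z b ↔ (Emem U z a ∧ φ.Sat (Emem U) (Function.update v 0 z)) := by
  obtain ⟨a, rfl⟩ := cls_surj U a
  choose w hw using fun i => cls_surj U (v i)
  obtain rfl : (fun i => cls U (w i)) = v := funext hw
  refine ⟨cls U (sep a fun z => φ.val (Function.update w 0 z)), fun z => ?_⟩
  obtain ⟨z, rfl⟩ := cls_surj U z
  rw [Emem_cls, bmem_sep a (φ.ext_val w 0), U.inf_mem_iff, ← update_cls, los]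
  exact Iff.rfl

theorem update_cls₂ (v : ℕ → BSet B) (i k : ℕ) (x y : BSet B) :
    (fun j => cls U (Function.update (Function.update v i x) k y j)) =
      Function.update (Function.update (fun j => cls U (v j)) i (cls U x)) k (cls U y) := by
  rw [update_cls, update_cls]

theorem mod_replacement (φ : Fml) (v : ℕ → Mod U) (a : Mod U)
    (h : ∀ x, Emem U x a → ∃! y, φ.Sat (Emem U) (Function.update (Function.update v 0 x) 1 y)) :
    ∃ b, ∀ y, Emem U y b ↔
      ∃ x, Emem U x a ∧ φ.Sat (Emem U) (Function.update (Function.update v 0 x) 1 y) := by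
  obtain ⟨a, rfl⟩ := cls_surj U a
  choose w hw using fun i => cls_surj U (v i)
  obtain rfl : (fun i => cls U (w i)) = v := funext hw
  let f : BSet B → BSet B → B := fun x y => φ.val (Function.update (Function.update w 0 x) 1 y)
  have hf2 : ∀ x, Ext (fun y => f x y) := fun x => φ.ext_val (Function.update w 0 x) 1
  have hf1 : ∀ y, Ext (fun x => f x y) := by
    intro y x x'
    refine φ.val_congr _ _ _ fun j => ?_
    by_cases h1 : j = 1
    · subst h1; simp [beq_refl]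
    · by_cases h0 : j = 0
      · subst h0; simp
      · simp [Function.update_of_ne h1, Function.update_of_ne h0, beq_refl]
  have hsat : ∀ x y, φ.Sat (Emem U) (Function.update (Function.update (fun i => cls U (w i)) 0
      (cls U x)) 1 (cls U y)) ↔ f x y ∈ U := by
    intro x y
    rw [← update_cls₂]
    exact los φ _
  choose g hg using fun i : a.Idx => exists_eq_iSup (hf2 (a.elt i))
  -- uniqueness
  let uq : B := ⨅ x, bmem x a ⇨ ⨅ y, f x y ⇨ ⨅ y', f x y' ⇨ beq y y'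
  have huq : uq ∈ U := by
    show (⨅ x, bmem x a ⇨ ⨅ y, f x y ⇨ ⨅ y', f x y' ⇨ beq y y') ∈ U
    rw [iInf_mem_iff ((ext_bmem_left a).himp (Ext.iInf fun y => (hf1 y).himp
      (Ext.iInf fun y' => (hf1 y').himp (Ext.const _))))]
    intro x
    rw [U.himp_mem_iff]
    intro hx
    rw [iInf_mem_iff ((hf2 x).himp (Ext.iInf fun y' => (Ext.const _).himp (ext_beq_left y')))]
    intro y
    rw [U.himp_mem_iff]
    intro hy
    rw [iInf_mem_iff ((hf2 x).himp (ext_beq_right y))]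
    intro y'
    rw [U.himp_mem_iff]
    intro hy'
    obtain ⟨y0, h1, h2⟩ := h (cls U x) hx
    rw [← cls_eq, h2 (cls U y) ((hsat x y).mpr hy), h2 (cls U y') ((hsat x y').mpr hy')]
  refine ⟨cls U (mk a.Idx g fun i => a.wt i ⊓ f (a.elt i) (g i)), fun y => ?_⟩
  obtain ⟨y, rfl⟩ := cls_surj U y
  have hext : Ext (fun x => bmem x a ⊓ f x y) := (ext_bmem_left a).inf (hf1 y)
  have hR : (∃ x, Emem U x (cls U a) ∧ φ.Sat (Emem U) (Function.update (Function.update
      (fun i => cls U (w i)) 0 x) 1 (cls U y))) ↔ (⨆ x, bmem x a ⊓ f x y) ∈ U := by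
    rw [iSup_mem_iff' hext (fun x => Emem U x (cls U a) ∧ φ.Sat (Emem U) (Function.update
      (Function.update (fun i => cls U (w i)) 0 x) 1 (cls U y)))]
    intro x
    rw [hsat, U.inf_mem_iff]
    exact Iff.rfl
  rw [hR, Emem_cls]
  constructor
  · intro h1
    refine U.mono h1 (iSup_le fun i => ?_)
    refine le_iSup_of_le (a.elt i) ?_
    show (a.wt i ⊓ f (a.elt i) (g i)) ⊓ beq y (g i) ≤ bmem (a.elt i) a ⊓ f (a.elt i) y
    refine le_inf (inf_le_left.trans (inf_le_left.trans (wt_le_bmem a i))) ?_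
    refine le_trans (le_inf inf_le_right (inf_le_left.trans inf_le_right)) ?_
    rw [beq_symm]
    exact hf2 (a.elt i) (g i) y
  · intro h1
    refine U.mono (U.inf_mem huq h1) ?_
    rw [iSup_bmem (hf1 y), inf_iSup_eq]
    refine iSup_le fun i => le_iSup_of_le i ?_
    show uq ⊓ (a.wt i ⊓ f (a.elt i) y) ≤ (a.wt i ⊓ f (a.elt i) (g i)) ⊓ beq y (g i)
    have h2 : uq ⊓ (a.wt i ⊓ f (a.elt i) y) ≤ f (a.elt i) (g i) := by
      rw [hg i]
      exact inf_le_right.trans (inf_le_right.trans (le_iSup (f (a.elt i)) y))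
    refine le_inf (le_inf (inf_le_right.trans inf_le_left) h2) ?_
    have h3 : uq ⊓ (a.wt i ⊓ f (a.elt i) y) ≤ bmem (a.elt i) a :=
      inf_le_right.trans (inf_le_left.trans (wt_le_bmem a i))
    have h4 : uq ⊓ (a.wt i ⊓ f (a.elt i) y) ≤ ⨅ y, f (a.elt i) y ⇨ ⨅ y', f (a.elt i) y' ⇨
        beq y y' := by
      refine le_trans (le_inf (inf_le_left.trans (iInf_le _ (a.elt i))) h3) himp_inf_le
    have h5 : uq ⊓ (a.wt i ⊓ f (a.elt i) y) ≤ ⨅ y', f (a.elt i) y' ⇨ beq y y' := by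
      refine le_trans (le_inf (h4.trans (iInf_le _ y)) (inf_le_right.trans inf_le_right))
        himp_inf_le
    exact le_trans (le_inf (h5.trans (iInf_le _ (g i))) h2) himp_inf_le

theorem iSup_first {D : Type u} (r : D → D → Prop) [IsWellOrder D r] (p : D → B) :
    (⨆ d, p d) ≤ ⨆ d, p d ⊓ ⨅ e : {e : D // r e d}, (p e)ᶜ := by
  have wf : WellFounded r := IsWellFounded.wf
  refine iSup_le fun d => ?_
  induction d using wf.induction with
  | _ d ih =>
    have h1 : (⨆ e : {e : D // r e d}, p e) ≤ ⨆ d, p d ⊓ ⨅ e : {e : D // r e d}, (p e)ᶜ :=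
      iSup_le fun e => ih e.1 e.2
    have h2 : p d ≤ (p d ⊓ ⨅ e : {e : D // r e d}, (p e)ᶜ) ⊔ ⨆ e : {e : D // r e d}, p e := by
      have : (⨅ e : {e : D // r e d}, (p e)ᶜ) = (⨆ e : {e : D // r e d}, p e)ᶜ := by
        rw [compl_iSup]
      rw [this, sup_inf_right, compl_sup_eq_top, inf_top_eq]
      exact le_sup_left
    exact h2.trans (sup_le (le_iSup (fun d => p d ⊓ ⨅ e : {e : D // r e d}, (p e)ᶜ) d) h1)

theorem mod_choice (a : Mod U) (hne : ∀ x, Emem U x a → ∃ y, Emem U y x)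
    (hdis : ∀ x y z, Emem U x a → Emem U y a → Emem U z x → Emem U z y → x = y) :
    ∃ c, ∀ x, Emem U x a → ∃! z, Emem U z x ∧ Emem U z c := by
  classical
  obtain ⟨a, rfl⟩ := cls_surj U a
  let D : Type u := Σ i : a.Idx, (a.elt i).Idx
  let X : D → BSet B := fun d => (a.elt d.1).elt d.2
  let r : D → D → Prop := WellOrderingRel
  let p : a.Idx → D → B := fun i d => bmem (X d) (a.elt i)
  let W : D → B := fun d => ⨆ i : a.Idx, a.wt i ⊓ (p i d ⊓ ⨅ e : {e : D // r e d}, (p i e)ᶜ)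
  let c : BSet B := mk D X W
  -- disjointness
  let ds : B := ⨅ x, bmem x a ⇨ ⨅ y, bmem y a ⇨ ⨅ z, bmem z x ⇨ (bmem z y ⇨ beq x y)
  have hds : ds ∈ U := by
    show (⨅ x, bmem x a ⇨ ⨅ y, bmem y a ⇨ ⨅ z, bmem z x ⇨ (bmem z y ⇨ beq x y)) ∈ U
    rw [iInf_mem_iff ((ext_bmem_left a).himp (Ext.iInf fun y => (Ext.const _).himp
      (Ext.iInf fun z => (ext_bmem_right z).himp ((Ext.const _).himp (ext_beq_left y)))))]
    intro x
    rw [U.himp_mem_iff]
    intro hx
    rw [iInf_mem_iff ((ext_bmem_left a).himp (Ext.iInf fun z => (Ext.const _).himp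
      ((ext_bmem_right z).himp (ext_beq_right x))))]
    intro y
    rw [U.himp_mem_iff]
    intro hy
    rw [iInf_mem_iff ((ext_bmem_left x).himp ((ext_bmem_left y).himp (Ext.const _)))]
    intro z
    rw [U.himp_mem_iff]
    intro hz
    rw [U.himp_mem_iff]
    intro hz'
    exact (cls_eq U).mp (hdis (cls U x) (cls U y) (cls U z) hx hy hz hz')
  refine ⟨cls U c, fun x hx => ?_⟩
  obtain ⟨x, rfl⟩ := cls_surj U x
  rw [Emem_cls] at hx
  have hex : ∃ z, Emem U z (cls U x) ∧ Emem U z (cls U c) := by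
    obtain ⟨y, hy⟩ := hne (cls U x) hx
    obtain ⟨y, rfl⟩ := cls_surj U y
    rw [Emem_cls] at hy
    have h1 : bmem x a ⊓ bmem y x ≤ ⨆ z, bmem z x ⊓ bmem z c := by
      rw [bmem, iSup_inf_eq]
      refine iSup_le fun i => ?_
      -- on this piece `x = a i`
      have h2 : a.wt i ⊓ beq x (a.elt i) ⊓ bmem y x ≤ ⨆ d, p i d := by
        calc a.wt i ⊓ beq x (a.elt i) ⊓ bmem y x ≤ bmem y (a.elt i) := by
              rw [inf_assoc]; exact inf_le_right.trans (bmem_congr_right _ _ _)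
          _ ≤ ⨆ d, p i d := by
              refine iSup_le fun j => ?_
              refine le_iSup_of_le (⟨i, j⟩ : D) ?_
              exact inf_le_left.trans (wt_le_bmem (a.elt i) j)
      have h3 := h2.trans (iSup_first r (p i))
      calc a.wt i ⊓ beq x (a.elt i) ⊓ bmem y x
          ≤ (a.wt i ⊓ beq x (a.elt i)) ⊓ ⨆ d, p i d ⊓ ⨅ e : {e : D // r e d}, (p i e)ᶜ :=
            le_inf inf_le_left h3
        _ = ⨆ d, (a.wt i ⊓ beq x (a.elt i)) ⊓ (p i d ⊓ ⨅ e : {e : D // r e d}, (p i e)ᶜ) :=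
            inf_iSup_eq _ _
        _ ≤ ⨆ z, bmem z x ⊓ bmem z c := by
            refine iSup_le fun d => le_iSup_of_le (X d) ?_
            refine le_inf ?_ ?_
            · calc (a.wt i ⊓ beq x (a.elt i)) ⊓ (p i d ⊓ ⨅ e : {e : D // r e d}, (p i e)ᶜ)
                  ≤ beq (a.elt i) x ⊓ bmem (X d) (a.elt i) := by
                    rw [beq_symm (a.elt i)]
                    exact le_inf (inf_le_left.trans inf_le_right)
                      (inf_le_right.trans inf_le_left)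
                _ ≤ bmem (X d) x := bmem_congr_right _ _ _
            · calc (a.wt i ⊓ beq x (a.elt i)) ⊓ (p i d ⊓ ⨅ e : {e : D // r e d}, (p i e)ᶜ)
                  ≤ a.wt i ⊓ (p i d ⊓ ⨅ e : {e : D // r e d}, (p i e)ᶜ) :=
                    inf_le_inf_right _ inf_le_left
                _ ≤ W d := le_iSup (fun i => a.wt i ⊓ (p i d ⊓ ⨅ e : {e : D // r e d}, (p i e)ᶜ)) i
                _ ≤ bmem (X d) c := wt_le_bmem c d
    have h2 := U.mono (U.inf_mem hx hy) h1
    rw [iSup_mem_iff ((ext_bmem_left x).inf (ext_bmem_left c))] at h2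
    obtain ⟨z, hz⟩ := h2
    exact ⟨cls U z, (U.inf_mem_iff.mp hz).1, (U.inf_mem_iff.mp hz).2⟩
  obtain ⟨z, hz1, hz2⟩ := hex
  refine ⟨z, ⟨hz1, hz2⟩, fun z' hz' => ?_⟩
  obtain ⟨hz1', hz2'⟩ := hz'
  obtain ⟨z, rfl⟩ := cls_surj U z
  obtain ⟨z', rfl⟩ := cls_surj U z'
  rw [Emem_cls] at hz1 hz2 hz1' hz2'
  have key : ds ⊓ bmem x a ⊓ (bmem z x ⊓ bmem z' x) ⊓ bmem z c ⊓ bmem z' c ≤ beq z' z := by
    have h1 : bmem z c = ⨆ d : D, ⨆ i : a.Idx,
        (a.wt i ⊓ (p i d ⊓ ⨅ e : {e : D // r e d}, (p i e)ᶜ)) ⊓ beq z (X d) := by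
      show (⨆ d : D, (⨆ i : a.Idx, a.wt i ⊓ (p i d ⊓ ⨅ e : {e : D // r e d}, (p i e)ᶜ)) ⊓
        beq z (X d)) = _
      refine iSup_congr fun d => iSup_inf_eq _ _
    have h1' : bmem z' c = ⨆ d : D, ⨆ i : a.Idx,
        (a.wt i ⊓ (p i d ⊓ ⨅ e : {e : D // r e d}, (p i e)ᶜ)) ⊓ beq z' (X d) := by
      show (⨆ d : D, (⨆ i : a.Idx, a.wt i ⊓ (p i d ⊓ ⨅ e : {e : D // r e d}, (p i e)ᶜ)) ⊓
        beq z' (X d)) = _
      refine iSup_congr fun d => iSup_inf_eq _ _
    rw [h1, h1']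
    simp only [inf_iSup_eq, iSup_inf_eq]
    refine iSup_le fun d' => iSup_le fun i' => iSup_le fun d => iSup_le fun i => ?_
    -- check on ultrafilters
    refine UF.le_of_forall fun V hV => ?_
    simp only [V.inf_mem_iff] at hV
    obtain ⟨⟨⟨⟨hds', hxa⟩, hzx, hz'x⟩, ⟨hwi, hpi, hmin⟩, hzd⟩, ⟨hwi', hpi', hmin'⟩, hz'd'⟩ := hV
    have hD : ∀ x y z, bmem x a ∈ V → bmem y a ∈ V → bmem z x ∈ V → bmem z y ∈ V →
        beq x y ∈ V := by
      intro x y z h1 h2 h3 h4
      have := V.mono hds' (iInf_le _ x)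
      have := V.mono (V.himp_mem_iff.mp this h1) (iInf_le _ y)
      have := V.mono (V.himp_mem_iff.mp this h2) (iInf_le _ z)
      exact V.himp_mem_iff.mp (V.himp_mem_iff.mp this h3) h4
    have hai : bmem (a.elt i) a ∈ V := V.mono hwi (wt_le_bmem a i)
    have hai' : bmem (a.elt i') a ∈ V := V.mono hwi' (wt_le_bmem a i')
    have hzi : bmem z (a.elt i) ∈ V := by
      refine V.mono (V.inf_mem ?_ hpi) (bmem_congr_left (X d) z (a.elt i))
      rw [beq_symm]; exact hzd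
    have hzi' : bmem z' (a.elt i') ∈ V := by
      refine V.mono (V.inf_mem ?_ hpi') (bmem_congr_left (X d') z' (a.elt i'))
      rw [beq_symm]; exact hz'd'
    have e1 : beq x (a.elt i) ∈ V := hD _ _ _ hxa hai hzx hzi
    have e2 : beq x (a.elt i') ∈ V := hD _ _ _ hxa hai' hz'x hzi'
    have e3 : beq (a.elt i) (a.elt i') ∈ V := by
      rw [beq_symm] at e1
      exact V.mono (V.inf_mem e1 e2) (beq_trans _ _ _)
    have e3' : beq (a.elt i') (a.elt i) ∈ V := by rw [beq_symm]; exact e3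
    rcases trichotomous_of r d d' with hlt | heq | hgt
    · exfalso
      have h5 : (p i' d)ᶜ ∈ V := V.mono hmin' (iInf_le _ (⟨d, hlt⟩ : {e : D // r e d'}))
      exact V.compl_mem_iff.mp h5 (V.mono (V.inf_mem e3 hpi) (bmem_congr_right _ _ _))
    · subst heq
      rw [beq_symm] at hzd
      exact V.mono (V.inf_mem hz'd' hzd) (beq_trans _ _ _)
    · exfalso
      have h5 : (p i d')ᶜ ∈ V := V.mono hmin (iInf_le _ (⟨d', hgt⟩ : {e : D // r e d}))
      exact V.compl_mem_iff.mp h5 (V.mono (V.inf_mem e3' hpi') (bmem_congr_right _ _ _))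
  rw [cls_eq]
  exact U.mono (U.inf_mem (U.inf_mem (U.inf_mem (U.inf_mem hds hx) (U.inf_mem hz1 hz1')) hz2)
    hz2') key

end Pool.Agent.BVM
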